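import Pool.Agent.Q173.WD.Main
import Pool.Agent.Q226.IL.Wt

/-!
# The degrees of the local Euler factors: definitions
-/

set_option autoImplicit false

namespace Pool.Agent.Q219.DG

open Polynomial Pool.Agent.Q173.WD
open Pool.Agent.Q226.IL (Mixed MonodromyWeight)

variable {p : ℕ} {W : Type} [Group W] {C : Type*}

/-- The known properties of the cohomology of the varieties of the class `C` (`Theory.IsKnown`), and:
the inertia group acts on the Weil–Deligne representations through finite groups. -/
structure Facts (T : Theory p W C) [TopologicalSpace W] (ν : W →* Multiplicative ℤ) (E : C → C) :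
    Prop where
  known : T.IsKnown ν E
  finite : ∀ X ℓ n, (Set.range fun g : ν.ker => (T.H X ℓ n).ρ g).Finite

/-- The trace of the action of `w`. -/
noncomputable def tr {Ω : Type} [Field Ω] {W : Type} (A : Dat Ω W) (w : W) : Ω :=
  LinearMap.trace Ω A.V (A.ρ w)

/-- The element `x` of the field `Ω` is the rational number `q`. -/
def IsRat {Ω : Type} [Field Ω] (x : Ω) (q : ℚ) : Prop := x = (q : Ω)

/-- The traces of the elements of positive degree of the Weil group on `H^n(X)` are rational and do
not depend on `ℓ`, for all `n`. (This is known if the Künneth projectors of `X` are algebraic; T. Saito.) -/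
def SameTraces (T : Theory p W C) (ν : W →* Multiplicative ℤ) (X : C) : Prop :=
  ∀ (n : ℤ) (w : W), 0 < dg ν w → ∃ q : ℚ, ∀ ℓ, IsRat (tr (T.H X ℓ n) w) q

/-- The weight-monodromy conjecture for `X` at `p`, for the prime `ℓ`: the eigenvalues of the
Frobenius element `F` on `H^n(X)` are Weil numbers (`Mixed`), and `N ^ k` is a bijection of the part
of weight `n + k` onto the part of weight `n - k`, for all `n` and all `k ≥ 0` (`MonodromyWeight`). -/
def WM (T : Theory p W C) (F : W) (ℓ : Aux p) (X : C) : Prop :=
  ∀ n : ℤ, Mixed p ((T.H X ℓ n).ρ F) ∧ MonodromyWeight p n ((T.H X ℓ n).ρ F) (T.H X ℓ n).N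

/-- The Euler factor of `H^n(X)` over the finite extension of `ℚ_p` with Weil group `U` and Frobenius
element `w`, for the prime `ℓ`. -/
noncomputable def factor (T : Theory p W C) (ν : W →* Multiplicative ℤ) (U : Subgroup W) (w : W)
    (X : C) (ℓ : Aux p) (n : ℤ) : Polynomial (Ql ℓ) :=
  (T.H X ℓ n).euler ν U w 1

/-- The degree of the Euler factor. -/
noncomputable def degFactor (T : Theory p W C) (ν : W →* Multiplicative ℤ) (U : Subgroup W) (w : W)
    (X : C) (ℓ : Aux p) (n : ℤ) : ℕ :=
  (factor T ν U w X ℓ n).natDegree

/-- The polynomial `P` with coefficients in `ℚ_ℓ` is the polynomial `R` with integral coefficients. -/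
def IsInt {ℓ : Aux p} (P : Polynomial (Ql ℓ)) (R : Polynomial ℤ) : Prop :=
  P = R.map (Int.castRingHom (Ql ℓ))

/-- The polynomial `R` with integral coefficients divides the polynomial `P` with coefficients in
`ℚ_ℓ`. -/
def Divs {ℓ : Aux p} (R : Polynomial ℤ) (P : Polynomial (Ql ℓ)) : Prop :=
  R.map (Int.castRingHom (Ql ℓ)) ∣ P

/-- The statement of Q1 for the prime `p` and the varieties of the class `C`: for all `X`, `n` and every
geometric Frobenius element `F` the polynomial `det(1 - T F)` on the inertia invariants (the invariants of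
the inertia group in the kernel of `N`) has integral coefficients and does not depend on `ℓ`. -/
def Q1 (T : Theory p W C) (ν : W →* Multiplicative ℤ) : Prop :=
  ∀ (X : C) (F : W), dg ν F = 1 → T.Good ν ⊤ F 1 X

end Pool.Agent.Q219.DG
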