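import Pool.Agent.Q219.DG.Seq

/-!
# Divisibility of the polynomials on the kernels of the powers of `N`
-/

set_option autoImplicit false
set_option linter.unusedSectionVars false

open Polynomial

namespace Pool.Agent.Q219.DG

open Pool.Agent.Q173.WD
open Pool.Agent.Q219.WD (trOn trOn_eq trOn_top trOn_pow trOn_idem trOn_smul ker_pow proj_pow
  range_pow N_wt_pow trace_mul_ev)
open Pool.Agent.Q226.IL (ev ev_X ev_C ev_comm wt Mixed MonodromyWeight Killed IsProjTo PureWt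
  exists_proj N_wt)

section weights

variable {K V : Type} [Field K] [CharZero K] [AddCommGroup V] [Module K V] [FiniteDimensional K V]
  {q : ℕ} {S : Finset ℤ} {g : ℤ → ℚ[X]} {Φ N : Module.End K V} {w b : ℤ} {P P' : ℚ[X]}

lemma pow_rel' (hN : N * Φ = (q : K) • (Φ * N)) (j : ℕ) :
    N ^ j * Φ = ((q : K) ^ j) • (Φ * N ^ j) := by
  induction j with
  | zero => simp
  | succ j ih =>
    rw [pow_succ', mul_assoc, ih, mul_smul_comm, ← mul_assoc, hN, smul_mul_assoc, smul_smul,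
      mul_assoc, ← pow_succ]

lemma proj_idem (hq : 2 ≤ q) (hK : Killed q S g Φ) (hP : IsProjTo q Φ b P) :
    ev Φ P * ev Φ P = ev Φ P := by
  refine hK.ext hq fun a v hv => ?_
  rw [Module.End.mul_apply]
  by_cases ha : a ≤ b
  · rw [hP.le a ha v hv, hP.le a ha v hv]
  · rw [hP.gt a (by omega) v hv, map_zero]

lemma ev_Phi (Q : ℚ[X]) : ev Φ Q * Φ = Φ * ev Φ Q := by
  have h1 : ev Φ Q * ev Φ X = ev Φ X * ev Φ Q := by rw [← map_mul, ← map_mul, mul_comm]
  rwa [ev_X] at h1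

lemma range_stable (Q : ℚ[X]) (c : K) :
    ∀ x ∈ LinearMap.range (ev Φ Q), (c • Φ) x ∈ LinearMap.range (ev Φ Q) := by
  rintro _ ⟨y, rfl⟩
  refine ⟨c • Φ y, ?_⟩
  rw [map_smul, ← Module.End.mul_apply, ev_Phi]
  rfl

lemma mem_range (hq : 2 ≤ q) (hK : Killed q S g Φ) (hP : IsProjTo q Φ b P) (v : V) :
    v ∈ LinearMap.range (ev Φ P) ↔ ev Φ P v = v := by
  constructor
  · rintro ⟨y, rfl⟩
    rw [← Module.End.mul_apply, proj_idem hq hK hP]
  · exact fun h => ⟨v, h⟩

lemma trace_range (hq : 2 ≤ q) (hK : Killed q S g Φ) (hP : IsProjTo q Φ b P) (c : K) (m : ℕ) :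
    LinearMap.trace K _ (((c • Φ).restrict (range_stable P c)) ^ m) =
      c ^ m * LinearMap.trace K V (Φ ^ m * ev Φ P) := by
  rw [trOn_pow (range_stable P c) m, trOn_idem (U := ⊤) (e := ev Φ P) (fun _ _ => Submodule.mem_top)
    (fun _ _ => Submodule.mem_top) (fun v => ?_) (fun v _ => ?_) (fun v _ => ?_), trOn_top rfl,
    _root_.smul_pow, smul_mul_assoc, map_smul, smul_eq_mul]
  · rw [mem_range hq hK hP]
    exact ⟨fun h => ⟨Submodule.mem_top, h⟩, fun h => h.2⟩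
  · rw [← Module.End.mul_apply, proj_idem hq hK hP]
  · rw [← Module.End.mul_apply, ← Module.End.mul_apply]
    congr 1
    have h1 : Commute (ev Φ P) (c • Φ) := by
      show ev Φ P * (c • Φ) = (c • Φ) * ev Φ P
      rw [mul_smul_comm, smul_mul_assoc, ev_Phi]
    exact (h1.pow_right m).eq

lemma map_range_le (hq : 2 ≤ q) (hK : Killed q S g Φ) (hN : N * Φ = (q : K) • (Φ * N)) (j : ℕ)
    (hP : IsProjTo q Φ (w + j - 1) P) (hP' : IsProjTo q Φ (w - j - 1) P') :
    (LinearMap.range (ev Φ P)).map (N ^ j) ≤ LinearMap.range (ev Φ P') := by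
  have e : w + (j : ℤ) - 1 - 2 * j = w - j - 1 := by ring
  rintro _ ⟨_, ⟨y, rfl⟩, rfl⟩
  have h1 := proj_pow hq hK hN j hP (P' := P') (by rw [e]; exact hP')
  refine ⟨(N ^ j) y, ?_⟩
  rw [← Module.End.mul_apply, h1, Module.End.mul_apply]

lemma ker_st (hN : N * Φ = (q : K) • (Φ * N)) (j : ℕ) :
    ∀ x ∈ LinearMap.ker (N ^ j), Φ x ∈ LinearMap.ker (N ^ j) := by
  intro x hx
  rw [LinearMap.mem_ker] at hx ⊢
  rw [← Module.End.mul_apply, pow_rel' hN, LinearMap.smul_apply, Module.End.mul_apply, hx, map_zero,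
    smul_zero]

lemma seq_rel (hN : N * Φ = (q : K) • (Φ * N)) (j : ℕ) (x : V) :
    (N ^ j) (Φ x) = (((q : K) ^ j) • Φ) ((N ^ j) x) := by
  rw [← Module.End.mul_apply, pow_rel' hN]
  rfl

/-- without purity -/
lemma seq_dvd (hq : 2 ≤ q) (hK : Killed q S g Φ) (hN : N * Φ = (q : K) • (Φ * N)) (j : ℕ)
    (hP : IsProjTo q Φ (w + j - 1) P) (hP' : IsProjTo q Φ (w - j - 1) P') :
    ∃ k i l : K[X], resChar Φ (LinearMap.range (ev Φ P)) = k * i ∧
      resChar (((q : K) ^ j) • Φ) (LinearMap.range (ev Φ P')) = i * l ∧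
      k ∣ resChar Φ (LinearMap.ker (N ^ j)) := by
  have hU : ∀ x ∈ LinearMap.range (ev Φ P), Φ x ∈ LinearMap.range (ev Φ P) := by
    have := range_stable (Φ := Φ) P (1 : K)
    rwa [one_smul] at this
  have h1 := resChar_seq hU (seq_rel hN j)
  have h2 : ∀ y ∈ (LinearMap.range (ev Φ P)).map (N ^ j),
      (((q : K) ^ j) • Φ) y ∈ (LinearMap.range (ev Φ P)).map (N ^ j) := by
    rintro _ ⟨x, hx, rfl⟩
    exact ⟨Φ x, hU x hx, seq_rel hN j x⟩
  obtain ⟨l, hl⟩ := resChar_dvd h2 (range_stable P' ((q : K) ^ j)) (map_range_le hq hK hN j hP hP')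
  exact ⟨_, _, l, h1, hl, resChar_dvd (fun x hx => ⟨hU x hx.1, ker_st hN j x hx.2⟩) (ker_st hN j)
    inf_le_right⟩

/-- with purity -/
lemma seq_eq (hq : 2 ≤ q) (hK : Killed q S g Φ) (hN : N * Φ = (q : K) • (Φ * N))
    (hM : MonodromyWeight q w Φ N) (j : ℕ)
    (hP : IsProjTo q Φ (w + j - 1) P) (hP' : IsProjTo q Φ (w - j - 1) P') :
    resChar Φ (LinearMap.range (ev Φ P)) = resChar Φ (LinearMap.ker (N ^ j)) *
      resChar (((q : K) ^ j) • Φ) (LinearMap.range (ev Φ P')) := by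
  have hU : ∀ x ∈ LinearMap.range (ev Φ P), Φ x ∈ LinearMap.range (ev Φ P) := by
    have := range_stable (Φ := Φ) P (1 : K)
    rwa [one_smul] at this
  have h1 := resChar_seq hU (seq_rel hN j)
  have e : w + (j : ℤ) - 1 - 2 * j = w - j - 1 := by ring
  have h3 := proj_pow hq hK hN j hP (P' := P') (by rw [e]; exact hP')
  have h4 : LinearMap.range (ev Φ P) ⊓ LinearMap.ker (N ^ j) = LinearMap.ker (N ^ j) := by
    refine inf_eq_right.2 fun v hv => ?_
    rw [mem_range hq hK hP]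
    exact ker_pow hq hK hN hM j hP hv
  have h5 : (LinearMap.range (ev Φ P)).map (N ^ j) = LinearMap.range (ev Φ P') := by
    refine le_antisymm (map_range_le hq hK hN j hP hP') ?_
    rintro _ ⟨y, rfl⟩
    obtain ⟨x, hx⟩ := range_pow hq hK hM j hP' y
    refine ⟨ev Φ P x, ⟨x, rfl⟩, ?_⟩
    rw [← Module.End.mul_apply, ← h3, Module.End.mul_apply, hx, ← Module.End.mul_apply,
      proj_idem hq hK hP']
  rw [h1, h4, h5]

lemma rev_ne_zero {f : K[X]} (h : f.Monic) : f.reverse ≠ 0 := by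
  rw [Ne, reverse_eq_zero]
  exact h.ne_zero

end weights

section pair

variable {K V K' V' : Type} [Field K] [CharZero K] [AddCommGroup V] [Module K V]
  [FiniteDimensional K V] [Field K'] [CharZero K'] [AddCommGroup V'] [Module K' V']
  [FiniteDimensional K' V'] {q : ℕ} {S : Finset ℤ} {g : ℤ → ℚ[X]} {Φ N : Module.End K V}
  {Φ' N' : Module.End K' V'} {w : ℤ}

lemma pair_range (hq : 2 ≤ q) (hK : Killed q S g Φ) (hK' : Killed q S g Φ')
    (hτ : ∀ m : ℕ, ∃ τ : ℚ, LinearMap.trace K V (Φ ^ (m + 1)) = algebraMap ℚ K τ ∧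
      LinearMap.trace K' V' (Φ' ^ (m + 1)) = algebraMap ℚ K' τ) {b : ℤ} {P : ℚ[X]}
    (hP : IsProjTo q Φ b P) (hP' : IsProjTo q Φ' b P) (c : ℚ) :
    ∃ R : ℚ[X], (resChar ((algebraMap ℚ K c) • Φ) (LinearMap.range (ev Φ P))).reverse =
        R.map (algebraMap ℚ K) ∧
      (resChar ((algebraMap ℚ K' c) • Φ') (LinearMap.range (ev Φ' P))).reverse =
        R.map (algebraMap ℚ K') := by
  rw [resChar_eq (range_stable P _), resChar_eq (range_stable P _)]
  refine pair_poly fun m => ?_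
  choose τ h1 h2 using hτ
  have e1 : ∀ k, LinearMap.trace K V (Φ ^ (m + 1) * Φ ^ k) = algebraMap ℚ K (τ (m + k)) := by
    intro k
    rw [← pow_add, ← h1]
    congr 2
    ring
  have e2 : ∀ k, LinearMap.trace K' V' (Φ' ^ (m + 1) * Φ' ^ k) = algebraMap ℚ K' (τ (m + k)) := by
    intro k
    rw [← pow_add, ← h2]
    congr 2
    ring
  refine ⟨c ^ (m + 1) * (P.sum fun k a => a * τ (m + k)), ?_, ?_⟩
  · rw [trace_range hq hK hP, trace_mul_ev e1, map_mul, map_pow]
  · rw [trace_range hq hK' hP', trace_mul_ev e2, map_mul, map_pow]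

/-- **The polynomial for a prime with purity divides the polynomials for the other primes.** -/
theorem exists_dvd (hq : 2 ≤ q) (hK : Killed q S g Φ) (hK' : Killed q S g Φ')
    (hN : N * Φ = (q : K) • (Φ * N)) (hN' : N' * Φ' = (q : K') • (Φ' * N'))
    (hM : MonodromyWeight q w Φ N)
    (hτ : ∀ m : ℕ, ∃ τ : ℚ, LinearMap.trace K V (Φ ^ (m + 1)) = algebraMap ℚ K τ ∧
      LinearMap.trace K' V' (Φ' ^ (m + 1)) = algebraMap ℚ K' τ) (j : ℕ) :
    ∃ r : ℚ[X], (resChar Φ (LinearMap.ker (N ^ j))).reverse = r.map (algebraMap ℚ K) ∧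
      r.map (algebraMap ℚ K') ∣ (resChar Φ' (LinearMap.ker (N' ^ j))).reverse := by
  obtain ⟨P, hP⟩ := exists_proj hq S g hK.pure (w + j - 1)
  obtain ⟨P', hP'⟩ := exists_proj hq S g hK.pure (w - j - 1)
  obtain ⟨a, ha, ha'⟩ := pair_range hq hK hK' hτ (hP K V Φ hK) (hP K' V' Φ' hK') 1
  obtain ⟨b, hb, hb'⟩ := pair_range hq hK hK' hτ (hP' K V Φ hK) (hP' K' V' Φ' hK')
    ((q : ℚ) ^ j)
  rw [map_one, one_smul] at ha ha'
  rw [map_pow, map_natCast] at hb hb'
  have h1 := seq_eq hq hK hN hM j (hP K V Φ hK) (hP' K V Φ hK)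
  obtain ⟨k, i, l, h2, h3, h4⟩ := seq_dvd (w := w) hq hK' hN' j (hP K' V' Φ' hK') (hP' K' V' Φ' hK')
  have hbne : b.map (algebraMap ℚ K) ≠ 0 := by
    rw [← hb, resChar_eq (range_stable P' _)]
    exact rev_ne_zero (LinearMap.charpoly_monic _)
  have hbne' : b.map (algebraMap ℚ K') ≠ 0 := by
    rw [← hb', resChar_eq (range_stable P' _)]
    exact rev_ne_zero (LinearMap.charpoly_monic _)
  have h5 : a.map (algebraMap ℚ K) = (resChar Φ (LinearMap.ker (N ^ j))).reverse *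
      b.map (algebraMap ℚ K) := by
    rw [← ha, ← hb, h1, reverse_mul_of_domain]
  have h6 : b ∣ a := by
    rw [← Polynomial.map_dvd_map' (algebraMap ℚ K), h5]
    exact dvd_mul_left _ _
  obtain ⟨r, rfl⟩ := h6
  refine ⟨r, ?_, ?_⟩
  · rw [Polynomial.map_mul, mul_comm] at h5
    exact (mul_right_cancel₀ hbne h5).symm
  · have h7 : (b * r).map (algebraMap ℚ K') = k.reverse * i.reverse := by
      rw [← ha', h2, reverse_mul_of_domain]
    have h8 : b.map (algebraMap ℚ K') = i.reverse * l.reverse := by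
      rw [← hb', h3, reverse_mul_of_domain]
    have hi : i.reverse ≠ 0 := by
      intro h0
      rw [h8, h0, zero_mul] at hbne'
      exact hbne' rfl
    rw [Polynomial.map_mul, h8] at h7
    have h9 : k.reverse = l.reverse * r.map (algebraMap ℚ K') := by
      refine mul_right_cancel₀ hi ?_
      rw [← h7]
      ring
    obtain ⟨s, hs⟩ := h4
    rw [hs, reverse_mul_of_domain, h9]
    exact Dvd.intro_left _ rfl |>.mul_right _

end pair

end Pool.Agent.Q219.DG
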