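import Pool.Agent.Q219.DG.Inv

/-!
# The smallest Euler factor
-/

set_option autoImplicit false
set_option linter.unusedSectionVars false

open Polynomial

namespace Pool.Agent.Q219.DG

open Pool.Agent.Q173.WD
open Pool.Agent.Q219.WD (trOn trOn_eq trOn_top exists_common)

section pol

variable {p : ℕ} {ℓ₀ ℓ : Aux p}

/-- `P₀` is rational and divides `P` -/
def DvP (P₀ : Polynomial (Ql ℓ₀)) (P : Polynomial (Ql ℓ)) : Prop :=
  ∃ r : ℚ[X], P₀ = r.map (Rat.castHom _) ∧ r.map (Rat.castHom _) ∣ P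

lemma DvP.mul {P₀ Q₀ : Polynomial (Ql ℓ₀)} {P Q : Polynomial (Ql ℓ)} (h : DvP P₀ P)
    (h' : DvP Q₀ Q) : DvP (P₀ * Q₀) (P * Q) := by
  obtain ⟨r, h1, h2⟩ := h
  obtain ⟨s, h3, h4⟩ := h'
  exact ⟨r * s, by rw [Polynomial.map_mul, h1, h3], by
    rw [Polynomial.map_mul]
    exact mul_dvd_mul h2 h4⟩

lemma DvP.scale {P₀ : Polynomial (Ql ℓ₀)} {P : Polynomial (Ql ℓ)} (h : DvP P₀ P) (n : ℤ) :
    DvP (P₀.scaleRoots ((p : Ql ℓ₀) ^ n)) (P.scaleRoots ((p : Ql ℓ) ^ n)) := by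
  obtain ⟨r, h1, h2⟩ := h
  have key : ∀ (ℓ' : Aux p), (r.map (Rat.castHom (Ql ℓ'))).scaleRoots ((p : Ql ℓ') ^ n) =
      (r.scaleRoots ((p : ℚ) ^ n)).map (Rat.castHom (Ql ℓ')) := by
    intro ℓ'
    by_cases h0 : r = 0
    · rw [h0]
      simp
    · rw [Polynomial.map_scaleRoots _ _ _ (by
        rw [Ne, map_eq_zero]
        exact leadingCoeff_ne_zero.2 h0), map_zpow₀]
      simp
  refine ⟨r.scaleRoots ((p : ℚ) ^ n), ?_, ?_⟩
  · rw [h1, key]
  · rw [← key]
    exact scaleRoots_dvd _ _ h2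

end pol

section family

variable {p : ℕ} [hp : Fact p.Prime] {W : Type} [Group W] [TopologicalSpace W]
  {ν : W →* Multiplicative ℤ} {C : Type*} {T : Theory p W C} {E : C → C} {F : W} {X : C}

/-- the divisibility is inherited by the products with powers of `E` -/
lemma stack_dv (hT : T.IsKnown ν E) {U : Subgroup W} {w : W} (hw : w ∈ U) {ℓ₀ ℓ : Aux p}
    (hbase : ∀ m n, DV T ν U w ℓ₀ ℓ m X n) (k : ℕ) : ∀ m n, DV T ν U w ℓ₀ ℓ m (stack E X k) n := by
  induction k with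
  | zero => exact hbase
  | succ k ih =>
    intro m n
    have e1 : stack E X (k + 1) = E (stack E X k) := rfl
    unfold DV
    rcases m with _ | m
    · rw [(hT.rep _ ℓ₀ n).pol_zero hw, (hT.rep _ ℓ n).pol_zero hw]
      exact ⟨1, by rw [Polynomial.map_one], by rw [Polynomial.map_one]⟩
    · rw [e1, kunneth_pol hT hw, kunneth_pol hT hw, (hT.rep _ ℓ₀ (n - 1)).tate_pol hw,
        (hT.rep _ ℓ (n - 1)).tate_pol hw, (hT.rep _ ℓ₀ (n - 2)).tate_pol hw,
        (hT.rep _ ℓ (n - 2)).tate_pol hw]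
      have a1 : DvP ((T.H (stack E X k) ℓ₀ (n - 1)).pol ν U w (m + 2))
        ((T.H (stack E X k) ℓ (n - 1)).pol ν U w (m + 2)) := ih (m + 2) (n - 1)
      have a2 : DvP ((T.H (stack E X k) ℓ₀ (n - 1)).pol ν U w m)
        ((T.H (stack E X k) ℓ (n - 1)).pol ν U w m) := ih m (n - 1)
      have a3 : DvP ((T.H (stack E X k) ℓ₀ n).pol ν U w (m + 1))
        ((T.H (stack E X k) ℓ n).pol ν U w (m + 1)) := ih (m + 1) n
      have a4 : DvP ((T.H (stack E X k) ℓ₀ (n - 2)).pol ν U w (m + 1))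
        ((T.H (stack E X k) ℓ (n - 2)).pol ν U w (m + 1)) := ih (m + 1) (n - 2)
      exact a1.mul ((a2.scale _).mul (a3.mul (a4.scale _)))

lemma factor_coeff {Y : C} (hT : T.IsKnown ν E) {U : Subgroup W} {w : W} (hw : w ∈ U) (ℓ : Aux p)
    (n : ℤ) : (factor T ν U w Y ℓ n).coeff 0 = 1 := by
  unfold factor Dat.euler
  rw [coeff_zero_reverse]
  exact (hT.rep Y ℓ n).pol_monic hw 1

/-- **The Euler factor for a prime with purity divides the Euler factors for all primes.** -/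
theorem min_factor (h : Facts T ν E) (hF : dg ν F = 1) (hS : SameTraces T ν X) {ℓ₀ : Aux p}
    (hW : WM T F ℓ₀ X) (k : ℕ) {U : Subgroup W} {w : W} (hw : w ∈ U) (h0 : 0 < dg ν w) (n : ℤ) :
    ∃ R : ℤ[X], IsInt (factor T ν U w (stack E X k) ℓ₀ n) R ∧
      ∀ ℓ, Divs R (factor T ν U w (stack E X k) ℓ n) ∧
        (IsInt (factor T ν U w (stack E X k) ℓ n) R ↔
          degFactor T ν U w (stack E X k) ℓ n ≤ degFactor T ν U w (stack E X k) ℓ₀ n) := by
  have hdv : ∀ ℓ, ∃ r : ℚ[X], factor T ν U w (stack E X k) ℓ₀ n = r.map (Rat.castHom _) ∧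
      r.map (Rat.castHom _) ∣ factor T ν U w (stack E X k) ℓ n := by
    intro ℓ
    obtain ⟨r, h1, h2⟩ := stack_dv h.known hw (fun m n => dv_of_wm h hF hS n hW ℓ hw h0 m) k 1 n
    refine ⟨r.reverse, ?_, ?_⟩
    · unfold factor Dat.euler
      rw [h1, reverse_map_inj _ (RingHom.injective _)]
    · obtain ⟨s, hs⟩ := h2
      unfold factor Dat.euler
      rw [hs, reverse_mul_of_domain, reverse_map_inj _ (RingHom.injective _)]
      exact Dvd.intro _ rfl
  obtain ⟨r, hr, -⟩ := hdv ℓ₀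
  obtain ⟨R, hR⟩ := int_of_integral (R := r) (B := Ql ℓ₀) (by
    intro i
    rw [← hr]
    exact integral_reverse (integral_resChar _ ((h.known.rep _ ℓ₀ n).inv_map hw 1)
      (h.known.int _ ℓ₀ n w h0)) i)
  have hmap : ∀ ℓ' : Aux p, (R.map (Int.castRingHom ℚ)).map (Rat.castHom (Ql ℓ')) =
      R.map (Int.castRingHom (Ql ℓ')) := by
    intro ℓ'
    rw [Polynomial.map_map]
    congr 1
  have hR0 : IsInt (factor T ν U w (stack E X k) ℓ₀ n) R := by
    unfold IsInt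
    rw [hr, ← hR, hmap]
  have hc : R.coeff 0 = 1 := by
    have h1 := factor_coeff (Y := stack E X k) h.known hw ℓ₀ n
    rw [hR0, coeff_map] at h1
    have h2 : ((R.coeff 0 : ℤ) : Ql ℓ₀) = ((1 : ℤ) : Ql ℓ₀) := by
      rw [Int.cast_one]
      exact h1
    exact Int.cast_injective h2
  have hdeg : ∀ ℓ' : Aux p, (R.map (Int.castRingHom (Ql ℓ'))).natDegree = R.natDegree :=
    fun ℓ' => natDegree_map_eq_of_injective (Int.castRingHom (Ql ℓ')).injective_int R
  refine ⟨R, hR0, fun ℓ => ?_⟩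
  obtain ⟨r', hr', hd⟩ := hdv ℓ
  have e : r' = r := Polynomial.map_injective _ (Rat.castHom (Ql ℓ₀)).injective (by rw [← hr', hr])
  rw [e, ← hR, hmap] at hd
  refine ⟨hd, fun h1 => ?_, fun h1 => ?_⟩
  · unfold degFactor
    rw [h1, hR0, hdeg, hdeg]
  · unfold degFactor at h1
    rw [hR0, hdeg] at h1
    obtain ⟨s, hs⟩ := hd
    have hs0 : s.coeff 0 = 1 := by
      have h2 := factor_coeff (Y := stack E X k) h.known hw ℓ n
      rw [hs, mul_coeff_zero, coeff_map, hc, map_one, one_mul] at h2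
      exact h2
    have hne : R.map (Int.castRingHom (Ql ℓ)) ≠ 0 := by
      intro h2
      have h3 := congrArg (fun P => P.coeff 0) h2
      simp only [coeff_map, hc, map_one, coeff_zero] at h3
      exact one_ne_zero h3
    have hsne : s ≠ 0 := by
      intro h2
      rw [h2, coeff_zero] at hs0
      exact zero_ne_one hs0
    rw [hs, natDegree_mul hne hsne, hdeg] at h1
    have h2 : s.natDegree = 0 := by omega
    unfold IsInt
    rw [hs, eq_C_of_natDegree_eq_zero h2, hs0, C_1, mul_one]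

/-- The degrees of the Euler factors over the finite extensions, for two primes. -/
lemma degree_le (h : Facts T ν E) (hF : dg ν F = 1) (hS : SameTraces T ν X) {ℓ₀ : Aux p}
    (hW : WM T F ℓ₀ X) (k : ℕ) {U : Subgroup W} {w : W} (hw : w ∈ U) (h0 : 0 < dg ν w) (n : ℤ)
    (ℓ : Aux p) : degFactor T ν U w (stack E X k) ℓ₀ n ≤ degFactor T ν U w (stack E X k) ℓ n := by
  obtain ⟨R, h1, h2⟩ := min_factor h hF hS hW k hw h0 n
  have hdeg : ∀ ℓ' : Aux p, (R.map (Int.castRingHom (Ql ℓ'))).natDegree = R.natDegree :=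
    fun ℓ' => natDegree_map_eq_of_injective (Int.castRingHom (Ql ℓ')).injective_int R
  unfold degFactor
  rw [h1, hdeg, ← hdeg ℓ]
  refine natDegree_le_of_dvd (h2 ℓ).1 ?_
  intro h3
  have h4 := factor_coeff (Y := stack E X k) h.known hw ℓ n
  rw [h3, coeff_zero] at h4
  exact zero_ne_one h4

/-- **Degrees and independence.** -/
theorem good_iff_degree [IsTopologicalGroup W] (h : Facts T ν E) (hF : dg ν F = 1) (hS : SameTraces T ν X) {ℓ₀ : Aux p}
    (hW : WM T F ℓ₀ X) (k : ℕ) {U : Subgroup W} {w : W} (hw : w ∈ U) (h0 : 0 < dg ν w) :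
    T.Good ν U w 1 (stack E X k) ↔ ∀ ℓ n,
      degFactor T ν U w (stack E X k) ℓ n ≤ degFactor T ν U w (stack E X k) ℓ₀ n := by
  constructor
  · intro hG ℓ n
    exact (good_degree U w hG ℓ ℓ₀ n).le
  · intro hd n
    obtain ⟨R, -, h2⟩ := min_factor h hF hS hW k hw h0 n
    exact ⟨R, fun ℓ => (h2 ℓ).2.2 (hd ℓ n)⟩

lemma trace_nextCoeff {K V : Type} [Field K] [AddCommGroup V] [Module K V] [FiniteDimensional K V]
    (f : Module.End K V) : LinearMap.trace K V f = -f.charpoly.nextCoeff := by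
  rw [LinearMap.trace_eq_matrix_trace K (Module.finBasis K V),
    Matrix.trace_eq_neg_charpoly_nextCoeff, LinearMap.charpoly_toMatrix]

/-- Q1 for the class implies the independence of the traces. -/
theorem sameTraces_of_q1 [IsTopologicalGroup W] (h : Facts T ν E) (hF : dg ν F = 1)
    (hQ : Q1 T ν) (X : C) : SameTraces T ν X := by
  intro n w hw
  have h1 := (all_iff h.known hF).1 fun X =>
    (good_iff h.known (Subgroup.mem_top F) (by omega) 1 X).1 (hQ X F hF)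
  have h2 : ∃ q : ℚ, ∀ ℓ : Aux p, tr (T.H X ℓ n) w = algebraMap ℚ (Ql ℓ) q := by
    refine exists_common (fun ℓ : Aux p => tr (T.H X ℓ n) w) fun ℓ₀ ℓ => ?_
    obtain ⟨d₀, hd₀⟩ := nil_of_rep (h.known.rep X ℓ₀ n)
    obtain ⟨d₁, hd₁⟩ := nil_of_rep (h.known.rep X ℓ n)
    have e₀ : ((T.H X ℓ₀ n).N : Module.End _ _) ^ (d₀ + d₁) = 0 := by rw [pow_add, hd₀, zero_mul]
    have e₁ : ((T.H X ℓ n).N : Module.End _ _) ^ (d₀ + d₁) = 0 := by rw [pow_add, hd₁, mul_zero]
    obtain ⟨R, hR⟩ := elements h.known h1 hw (d₀ + d₁) X n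
    have key : ∀ ℓ' : Aux p, ((T.H X ℓ' n).N : Module.End _ _) ^ (d₀ + d₁) = 0 →
        tr (T.H X ℓ' n) w = algebraMap ℚ (Ql ℓ') (-R.nextCoeff) := by
      intro ℓ' e
      have r := h.known.rep X ℓ' n
      have h3 : (T.H X ℓ' n).char w (d₀ + d₁) = R.map (Rat.castHom _) := hR ℓ'
      unfold Dat.char at h3
      rw [resChar_eq (r.ker_map w (d₀ + d₁))] at h3
      unfold tr
      rw [← trOn_top (W := LinearMap.ker ((T.H X ℓ' n).N ^ (d₀ + d₁))) (by
        rw [e, LinearMap.ker_zero]), trOn_eq (r.ker_map w (d₀ + d₁)), trace_nextCoeff, h3,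
        nextCoeff_map (RingHom.injective _), map_neg]
      congr 1
    exact ⟨_, key ℓ₀ e₀, key ℓ e₁⟩
  obtain ⟨q, hq⟩ := h2
  exact ⟨q, fun ℓ => by
    unfold IsRat
    rw [hq, eq_ratCast]⟩

end family

end Pool.Agent.Q219.DG
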