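import Pool.Agent.Q219.DG.Dvd

/-!
# The inertia invariants over a finite extension
-/

set_option autoImplicit false
set_option linter.unusedSectionVars false

open Polynomial

namespace Pool.Agent.Q219.DG

open Pool.Agent.Q173.WD
open Pool.Agent.Q219.WD (trOn trOn_eq trOn_top trOn_pow exists_pow_poly ev_comp_pow PureWt.comp_pow
  restrict_pow')
open Pool.Agent.Q226.IL (ev ev_X ev_C wt Mixed MonodromyWeight Killed PureWt killed_of_traces avg Quo
  avg_apply_fix avg_comm r_avg)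

section lin

variable {K V : Type} [Field K] [CharZero K] [AddCommGroup V] [Module K V]
  [FiniteDimensional K V] {q r k l : ℕ} {Φ Ψ : Module.End K V}

lemma wt_le (hk : 0 < k) (hl : 0 < l) (h : Φ ^ k = Ψ ^ l) (hq : q ^ k = r ^ l) (a : ℤ) :
    wt q Φ a ≤ wt r Ψ a := by
  rintro v ⟨g, hg, h1⟩
  obtain ⟨u, hu, c, hc⟩ := exists_pow_poly hk hg
  refine ⟨u.comp (X ^ l), PureWt.comp_pow hl (by rw [← hq]; exact hu), ?_⟩
  rw [ev_comp_pow, ← h, ← ev_comp_pow, hc, mul_comm, map_mul, Module.End.mul_apply, h1, map_zero]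

lemma mixed_of (hk : 0 < k) (hl : 0 < l) (h : Φ ^ k = Ψ ^ l) (hq : q ^ k = r ^ l)
    (hm : Mixed q Φ) : Mixed r Ψ := by
  obtain ⟨S, g, hg, h0⟩ := hm
  choose u hu c hc using fun j => exists_pow_poly hk (hg j)
  refine ⟨S, fun j => (u j).comp (X ^ l), fun j => PureWt.comp_pow hl (by rw [← hq]; exact hu j), ?_⟩
  have e1 : ∏ j ∈ S, (u j).comp (X ^ l) = (∏ j ∈ S, u j).comp (X ^ l) := by
    rw [Polynomial.prod_comp]
  have e2 : (∏ j ∈ S, u j).comp (X ^ k) = (∏ j ∈ S, g j) * ∏ j ∈ S, c j := by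
    rw [Polynomial.prod_comp, ← Finset.prod_mul_distrib]
    exact Finset.prod_congr rfl fun j _ => hc j
  rw [e1, ev_comp_pow, ← h, ← ev_comp_pow, e2, map_mul, h0, zero_mul]

lemma ev_restrict {U : Submodule K V} (h : ∀ v ∈ U, Φ v ∈ U) (g : ℚ[X]) (v : U) :
    ((ev (Φ.restrict h) g v : U) : V) = ev Φ g v := by
  induction g using Polynomial.induction_on' with
  | add P Q hP hQ =>
    rw [map_add, map_add, LinearMap.add_apply, LinearMap.add_apply, Submodule.coe_add, hP, hQ]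
  | monomial n a =>
    rw [← C_mul_X_pow_eq_monomial, map_mul, map_mul, map_pow, map_pow, ev_X, ev_X, ev_C, ev_C,
      smul_mul_assoc, one_mul, smul_mul_assoc, one_mul, LinearMap.smul_apply,
      LinearMap.smul_apply, Submodule.coe_smul, restrict_pow']

lemma mem_wt_restrict {U : Submodule K V} (h : ∀ v ∈ U, Φ v ∈ U) (a : ℤ) (v : U) :
    v ∈ wt q (Φ.restrict h) a ↔ (v : V) ∈ wt q Φ a := by
  constructor
  · rintro ⟨g, hg, h1⟩
    refine ⟨g, hg, ?_⟩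
    rw [← ev_restrict h, h1]
    rfl
  · rintro ⟨g, hg, h1⟩
    refine ⟨g, hg, Subtype.ext ?_⟩
    rw [ev_restrict h, h1]
    rfl

lemma mixed_restrict {U : Submodule K V} (h : ∀ v ∈ U, Φ v ∈ U) (hm : Mixed q Φ) :
    Mixed q (Φ.restrict h) := by
  obtain ⟨S, g, hg, h0⟩ := hm
  refine ⟨S, g, hg, ?_⟩
  ext v
  rw [ev_restrict h, h0]
  rfl

end lin

section rep

variable {Ω : Type} [Field Ω] [CharZero Ω] {W : Type} [Group W] [TopologicalSpace W]
  {ν : W →* Multiplicative ℤ} {p : ℕ} {A : Dat Ω W}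

/-- the powers of two elements of positive degree -/
lemma exists_power (h : A.IsRep ν p) (hfin : (Set.range fun g : ν.ker => A.ρ g).Finite) {F w : W}
    (hF : dg ν F = 1) {f : ℕ} (hw : dg ν w = f) :
    ∃ s, 0 < s ∧ (A.ρ w : Module.End Ω A.V) ^ s = (A.ρ F : Module.End Ω A.V) ^ (f * s) := by
  have hmem : ∀ m : ℕ, (F ^ (f * m))⁻¹ * w ^ m ∈ ν.ker := by
    intro m
    rw [← dg_eq_zero, dg_mul, dg_inv, dg_pow, dg_pow, hF, hw]
    push_cast
    ring
  have : Finite (Set.range fun g : ν.ker => A.ρ g) := hfin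
  let c : ℕ → Set.range fun g : ν.ker => A.ρ g := fun m => ⟨A.ρ _, ⟨⟨_, hmem m⟩, rfl⟩⟩
  obtain ⟨a, b, hab, he⟩ : ∃ a b : ℕ, a < b ∧ c a = c b := by
    obtain ⟨a, b, hab, he⟩ := Finite.exists_ne_map_eq_of_infinite c
    rcases lt_or_gt_of_ne hab with h1 | h1
    · exact ⟨a, b, h1, he⟩
    · exact ⟨b, a, h1, he.symm⟩
  obtain ⟨k, rfl⟩ := Nat.exists_eq_add_of_lt hab
  have h1 : A.ρ ((F ^ (f * a))⁻¹ * w ^ a) =
      A.ρ ((F ^ (f * (a + k + 1)))⁻¹ * w ^ (a + k + 1)) := congrArg Subtype.val he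
  refine ⟨k + 1, Nat.succ_pos k, ?_⟩
  have h2 := congrArg (fun B : Module.End Ω A.V => (A.ρ (F ^ (f * (a + k + 1))) : Module.End Ω A.V) *
    B * A.ρ ((w ^ a)⁻¹)) h1
  simp only [← rho_mul h] at h2
  have e1 : F ^ (f * (a + k + 1)) * ((F ^ (f * a))⁻¹ * w ^ a) * (w ^ a)⁻¹ = F ^ (f * (k + 1)) := by
    have e : f * (a + k + 1) = f * (k + 1) + f * a := by ring
    rw [e, pow_add]
    group
  have e2 : F ^ (f * (a + k + 1)) * ((F ^ (f * (a + k + 1)))⁻¹ * w ^ (a + k + 1)) * (w ^ a)⁻¹ =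
      w ^ (k + 1) := by
    have e : a + k + 1 = k + 1 + a := by ring
    rw [mul_inv_cancel_left, e, pow_add, mul_inv_cancel_right]
  rw [e1, e2, rho_pow h, rho_pow h] at h2
  exact h2.symm

lemma mem_inv_top {U : Subgroup W} {d : ℕ} (hd : (A.N : Module.End Ω A.V) ^ d = 0) (x : A.V) :
    x ∈ A.inv ν U d ↔ ∀ g ∈ U, g ∈ ν.ker → A.ρ g x = x := by
  rw [A.mem_inv]
  exact ⟨fun h => h.2, fun h => ⟨by rw [hd]; rfl, h⟩⟩

lemma N_inv (h : A.IsRep ν p) {U : Subgroup W} {d : ℕ} (hd : (A.N : Module.End Ω A.V) ^ d = 0) :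
    ∀ x ∈ A.inv ν U d, A.N x ∈ A.inv ν U d := by
  intro x hx
  rw [mem_inv_top hd] at hx ⊢
  intro g hg hν
  have h1 := h.rel' g x
  rw [dg_eq_zero.2 hν, zpow_zero, one_smul, hx g hg hν] at h1
  exact h1.symm

/-- purity for the inertia invariants over a finite extension -/
lemma pure_inv (h : A.IsRep ν p) (hfin : (Set.range fun g : ν.ker => A.ρ g).Finite) {F : W}
    (hF : dg ν F = 1) {n : ℤ} (hM : MonodromyWeight p n (A.ρ F) A.N) {U : Subgroup W} {w : W}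
    (hwU : w ∈ U) {f : ℕ} (hf : 0 < f) (hw : dg ν w = f) {d : ℕ}
    (hd : (A.N : Module.End Ω A.V) ^ d = 0)
    [Finite (Quo (U ⊓ ν.ker) (ν.ker ⊓ MonoidHom.ker (toRep h)))] :
    MonodromyWeight (p ^ f) n ((A.ρ w).restrict (h.inv_map hwU d))
      (A.N.restrict (N_inv h hd)) := by
  obtain ⟨s, hs, hws⟩ := exists_power h hfin hF hw
  have hwt : ∀ a, wt (p ^ f) (A.ρ w : Module.End Ω A.V) a = wt p (A.ρ F : Module.End Ω A.V) a := by
    intro a
    refine le_antisymm (wt_le hs (Nat.mul_pos hf hs) hws (by rw [← pow_mul]) a)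
      (wt_le (Nat.mul_pos hf hs) hs hws.symm (by rw [← pow_mul]) a)
  have hpow : ∀ (k : ℕ) (v : A.inv ν U d),
      ((((A.N.restrict (N_inv h hd)) ^ k) v : A.inv ν U d) : A.V) = (A.N ^ k) v :=
    fun k v => restrict_pow' (N_inv h hd) k v
  have hmem : ∀ (a : ℤ) (v : A.inv ν U d),
      v ∈ wt (p ^ f) ((A.ρ w).restrict (h.inv_map hwU d)) a ↔
        (v : A.V) ∈ wt p (A.ρ F : Module.End Ω A.V) a := by
    intro a v
    rw [mem_wt_restrict, hwt]
  intro k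
  refine ⟨fun v hv => ?_, fun x hx y hy hxy => ?_, fun y hy => ?_⟩
  · rw [SetLike.mem_coe, hmem] at hv ⊢
    rw [hpow]
    exact (hM k).mapsTo hv
  · rw [SetLike.mem_coe, hmem] at hx hy
    refine Subtype.ext ((hM k).injOn hx hy ?_)
    have h1 := congrArg Subtype.val hxy
    rw [hpow, hpow] at h1
    exact h1
  · rw [SetLike.mem_coe, hmem] at hy
    obtain ⟨x, hx, hxy⟩ := (hM k).surjOn hy
    set J := ν.ker ⊓ MonoidHom.ker (toRep h) with hJ
    obtain ⟨I, hI⟩ : ∃ I : Subgroup W, I = U ⊓ ν.ker := ⟨_, rfl⟩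
    have hfinI : Finite (Quo I J) := by
      rw [hI]
      infer_instance
    have : Fintype (Quo I J) := Fintype.ofFinite _
    have hJr : J ≤ MonoidHom.ker (toRep h) := inf_le_right
    have hle : ∀ g, g ∈ I → g ∈ U ∧ g ∈ ν.ker := by
      intro g hg
      rw [hI] at hg
      exact hg
    have hc : (A.N : Module.End Ω A.V) ^ k * avg I J (toRep h) =
        avg I J (toRep h) * (A.N : Module.End Ω A.V) ^ k := by
      have h1 : Commute (A.N : Module.End Ω A.V) (avg I J (toRep h)) := avg_comm fun g hg => by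
        rw [toRep_apply, N_rho h, dg_eq_zero.2 (hle g hg).2, zpow_zero, one_smul]
      exact (h1.pow_left k).eq
    have hx' : avg I J (toRep h) x ∈ A.inv ν U d := by
      rw [mem_inv_top hd]
      intro g hg hν
      have h1 := LinearMap.congr_fun (r_avg (I := I) hJr (g := g) (by rw [hI]; exact ⟨hg, hν⟩)) x
      exact h1
    refine ⟨⟨avg I J (toRep h) x, hx'⟩, ?_, Subtype.ext ?_⟩
    · rw [SetLike.mem_coe, hmem]
      show avg I J (toRep h) x ∈ wt p (A.ρ F : Module.End Ω A.V) (n + k)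
      rw [avg, LinearMap.smul_apply, LinearMap.sum_apply]
      refine Submodule.smul_mem _ _ (Submodule.sum_mem _ fun g _ => ?_)
      exact rho_wt h hfin F _ p _ x hx
    · rw [hpow]
      show (A.N ^ k) (avg I J (toRep h) x) = (y : A.V)
      have h1 := LinearMap.congr_fun hc x
      rw [Module.End.mul_apply, Module.End.mul_apply] at h1
      rw [h1]
      have h2 : (A.N ^ k) x = (y : A.V) := hxy
      rw [h2]
      refine avg_apply_fix fun g hg => ?_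
      exact (mem_inv_top hd _).1 y.2 g (hle g hg).1 (hle g hg).2

/-- the kernels of the powers of `N` on the inertia invariants -/
lemma pol_ker_inv (h : A.IsRep ν p) {U : Subgroup W} {w : W} (hwU : w ∈ U) {d : ℕ}
    (hd : (A.N : Module.End Ω A.V) ^ d = 0) (j : ℕ)
    (hst : ∀ x ∈ LinearMap.ker ((A.N.restrict (N_inv (U := U) h hd)) ^ j),
      (A.ρ w).restrict (h.inv_map hwU d) x ∈ LinearMap.ker ((A.N.restrict (N_inv (U := U) h hd)) ^ j)) :
    resChar ((A.ρ w).restrict (h.inv_map hwU d))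
      (LinearMap.ker ((A.N.restrict (N_inv (U := U) h hd)) ^ j)) = A.pol ν U w j := by
  have hle : A.inv ν U j ≤ A.inv ν U d := by
    intro x hx
    rw [mem_inv_top hd]
    exact ((A.mem_inv U j x).1 hx).2
  have e : LinearMap.ker ((A.N.restrict (N_inv (U := U) h hd)) ^ j) =
      (A.inv ν U j).submoduleOf (A.inv ν U d) := by
    ext x
    rw [LinearMap.mem_ker]
    constructor
    · intro hx
      refine (A.mem_inv U j x).2 ⟨?_, (mem_inv_top hd _).1 x.2⟩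
      rw [← restrict_pow' (N_inv h hd) j x, hx]
      rfl
    · intro hx
      refine Subtype.ext ?_
      rw [restrict_pow']
      exact ((A.mem_inv U j x).1 hx).1
  rw [resChar_eq hst, h.pol_eq hwU]
  exact charpoly_eq_of_equiv _ _
    ((LinearEquiv.ofEq _ _ e).trans (Submodule.submoduleOfEquivOfLe hle)) fun x => rfl

end rep

section family

variable {p : ℕ} [hp : Fact p.Prime] {W : Type} [Group W] [TopologicalSpace W]
  {ν : W →* Multiplicative ℤ} {C : Type*} {T : Theory p W C} {E : C → C} {F : W} {X : C}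

lemma nil_of_rep {Ω : Type} [Field Ω] {A : Dat Ω W} (h : A.IsRep ν p) :
    ∃ k, (A.N : Module.End Ω A.V) ^ k = 0 := by
  obtain ⟨k, hk⟩ := h.nil
  refine ⟨k, ?_⟩
  ext x
  rw [← A.monPow_eq, hk]
  rfl

/-- the traces on the inertia invariants, without purity -/
lemma traces_fixed (h : Facts T ν E) (hS : SameTraces T ν X) (n : ℤ) (ℓ₀ ℓ : Aux p) {d : ℕ}
    (hd₀ : ((T.H X ℓ₀ n).N : Module.End _ _) ^ d = 0) (hd : ((T.H X ℓ n).N : Module.End _ _) ^ d = 0)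
    {U : Subgroup W} {w : W} (hwU : w ∈ U) (hw : 0 < dg ν w) : ∃ q : ℚ,
      trOn (T.H X ℓ₀ n |>.ρ w) ((T.H X ℓ₀ n).inv ν U d) = algebraMap ℚ (Ql ℓ₀) q ∧
      trOn (T.H X ℓ n |>.ρ w) ((T.H X ℓ n).inv ν U d) = algebraMap ℚ (Ql ℓ) q := by
  set J := ν.ker ⊓ MonoidHom.ker (toRep (h.known.rep X ℓ₀ n)) ⊓
    MonoidHom.ker (toRep (h.known.rep X ℓ n)) with hJ
  obtain ⟨I, hI⟩ : ∃ I : Subgroup W, I = U ⊓ ν.ker := ⟨_, rfl⟩
  have hfin : Finite (Quo I J) := finite_quo h X n ℓ₀ ℓ (by rw [hI]; exact inf_le_right)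
  have : Fintype (Quo I J) := Fintype.ofFinite _
  have h1 : ∀ x : Quo I J, ∃ q : ℚ,
      trOn (T.H X ℓ₀ n |>.ρ (w * ((x.out : I) : W))) (LinearMap.ker ((T.H X ℓ₀ n).N ^ d)) =
        algebraMap ℚ (Ql ℓ₀) q ∧
      trOn (T.H X ℓ n |>.ρ (w * ((x.out : I) : W))) (LinearMap.ker ((T.H X ℓ n).N ^ d)) =
        algebraMap ℚ (Ql ℓ) q := by
    intro x
    have hle : I ≤ ν.ker := by
      rw [hI]
      exact inf_le_right
    have h2 : ((x.out : I) : W) ∈ ν.ker := hle (x.out : I).2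
    obtain ⟨q, h3, h4⟩ := hS.pair (w := w * ((x.out : I) : W)) n (by
      rw [dg_mul, dg_eq_zero.2 h2, add_zero]
      exact hw) ℓ₀ ℓ
    exact ⟨q, by rw [trOn_top (by rw [hd₀, LinearMap.ker_zero]), h3],
      by rw [trOn_top (by rw [hd, LinearMap.ker_zero]), h4]⟩
  choose q hq hq' using h1
  refine ⟨(Fintype.card (Quo I J) : ℚ)⁻¹ * ∑ x : Quo I J, q x, ?_, ?_⟩
  · rw [trace_inv (h.known.rep X ℓ₀ n) hI (J := J) (inf_le_left.trans inf_le_right) hwU, map_mul,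
      map_inv₀, map_natCast, map_sum, Finset.sum_congr rfl fun x _ => hq x]
  · rw [trace_inv (h.known.rep X ℓ n) hI (J := J) inf_le_right hwU, map_mul,
      map_inv₀, map_natCast, map_sum, Finset.sum_congr rfl fun x _ => hq' x]

/-- the polynomial of `X` for `ℓ₀` is rational and divides the polynomial for `ℓ` -/
def DV (T : Theory p W C) (ν : W →* Multiplicative ℤ) (U : Subgroup W) (w : W) (ℓ₀ ℓ : Aux p)
    (m : ℕ) (X : C) (n : ℤ) : Prop :=
  ∃ r : ℚ[X], (T.H X ℓ₀ n).pol ν U w m = r.map (Rat.castHom _) ∧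
    r.map (Rat.castHom _) ∣ (T.H X ℓ n).pol ν U w m

/-- **The polynomial for a prime with purity divides the polynomials for the other primes.** -/
theorem dv_of_wm (h : Facts T ν E) (hF : dg ν F = 1) (hS : SameTraces T ν X) (n : ℤ)
    {ℓ₀ : Aux p} (hW : WM T F ℓ₀ X) (ℓ : Aux p) {U : Subgroup W} {w : W} (hwU : w ∈ U)
    (hw : 0 < dg ν w) (j : ℕ) : DV T ν U w ℓ₀ ℓ j X n := by
  obtain ⟨hmix, hM⟩ := hW n
  have r₀ := h.known.rep X ℓ₀ n
  have r := h.known.rep X ℓ n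
  obtain ⟨f, hf⟩ : ∃ f : ℕ, dg ν w = f := ⟨(dg ν w).toNat, by omega⟩
  have hf0 : 0 < f := by omega
  obtain ⟨d₀, hd₀⟩ := nil_of_rep r₀
  obtain ⟨d₁, hd₁⟩ := nil_of_rep r
  have e₀ : ((T.H X ℓ₀ n).N : Module.End _ _) ^ (d₀ + d₁) = 0 := by rw [pow_add, hd₀, zero_mul]
  have e₁ : ((T.H X ℓ n).N : Module.End _ _) ^ (d₀ + d₁) = 0 := by rw [pow_add, hd₁, mul_zero]
  have hq : 2 ≤ p ^ f := hp.out.two_le.trans (Nat.le_self_pow hf0.ne' p)
  -- purity
  have hfin : Finite (Quo (U ⊓ ν.ker) (ν.ker ⊓ MonoidHom.ker (toRep r₀))) := by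
    have h1 := finite_quo h X n ℓ₀ ℓ₀ (I := U ⊓ ν.ker) inf_le_right
    have h2 : ν.ker ⊓ MonoidHom.ker (toRep r₀) ⊓ MonoidHom.ker (toRep r₀) =
        ν.ker ⊓ MonoidHom.ker (toRep r₀) := by rw [inf_assoc, inf_idem]
    rwa [h2] at h1
  have hP := pure_inv r₀ (h.finite X ℓ₀ n) hF hM hwU hf0 hf e₀
  -- weights
  obtain ⟨s, hs, hws⟩ := exists_power r₀ (h.finite X ℓ₀ n) hF hf
  have hmix' : Mixed (p ^ f) (((T.H X ℓ₀ n).ρ w).restrict (r₀.inv_map hwU (d₀ + d₁))) :=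
    mixed_restrict _ (mixed_of (Nat.mul_pos hf0 hs) hs hws.symm (by rw [← pow_mul]) hmix)
  have hτ : ∀ m : ℕ, ∃ τ : ℚ,
      LinearMap.trace (Ql ℓ₀) _
        (((T.H X ℓ₀ n).ρ w).restrict (r₀.inv_map hwU (d₀ + d₁)) ^ (m + 1)) =
          algebraMap ℚ (Ql ℓ₀) τ ∧
      LinearMap.trace (Ql ℓ) _
        (((T.H X ℓ n).ρ w).restrict (r.inv_map hwU (d₀ + d₁)) ^ (m + 1)) =
          algebraMap ℚ (Ql ℓ) τ := by
    intro m
    obtain ⟨q, h1, h2⟩ := traces_fixed h hS n ℓ₀ ℓ e₀ e₁ (U.pow_mem hwU (m + 1)) (by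
      rw [dg_pow]
      positivity)
    refine ⟨q, ?_, ?_⟩
    · rw [trOn_pow (r₀.inv_map hwU (d₀ + d₁)) (m + 1), ← rho_pow r₀, h1]
    · rw [trOn_pow (r.inv_map hwU (d₀ + d₁)) (m + 1), ← rho_pow r, h2]
  have hτ' := hτ
  choose τ h1 h2 using hτ
  have hu : IsUnit (((T.H X ℓ n).ρ w).restrict (r.inv_map hwU (d₀ + d₁)) :
      Module.End (Ql ℓ) ((T.H X ℓ n).inv ν U (d₀ + d₁))) := by
    rw [LinearMap.isUnit_iff_ker_eq_bot, LinearMap.ker_eq_bot]
    intro x y hxy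
    refine Subtype.ext ?_
    have h3 := congrArg Subtype.val hxy
    have h4 : (T.H X ℓ n).ρ w (x : (T.H X ℓ n).V) = (T.H X ℓ n).ρ w (y : (T.H X ℓ n).V) := h3
    have h5 := congrArg ((T.H X ℓ n).ρ w⁻¹) h4
    rwa [← r.mul', ← r.mul', inv_mul_cancel, r.one', r.one'] at h5
  obtain ⟨S, g, hK, hK'⟩ := killed_of_traces hu h1 h2 hmix'
  have hrel : ∀ (ℓ' : Aux p) (e : ((T.H X ℓ' n).N : Module.End _ _) ^ (d₀ + d₁) = 0),
      (T.H X ℓ' n).N.restrict (N_inv (U := U) (h.known.rep X ℓ' n) e) *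
        ((T.H X ℓ' n).ρ w).restrict ((h.known.rep X ℓ' n).inv_map hwU (d₀ + d₁)) =
      ((p ^ f : ℕ) : Ql ℓ') • (((T.H X ℓ' n).ρ w).restrict
        ((h.known.rep X ℓ' n).inv_map hwU (d₀ + d₁)) *
          (T.H X ℓ' n).N.restrict (N_inv (U := U) (h.known.rep X ℓ' n) e)) := by
    intro ℓ' e
    ext x
    have h3 := (h.known.rep X ℓ' n).rel' w (x : (T.H X ℓ' n).V)
    rw [hf, zpow_natCast] at h3
    rw [Nat.cast_pow]
    exact h3
  obtain ⟨R, h6, h7⟩ := exists_dvd hq hK hK' (hrel ℓ₀ e₀) (hrel ℓ e₁) hP hτ' j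
  rw [pol_ker_inv r₀ hwU e₀ j (ker_st (hrel ℓ₀ e₀) j)] at h6
  rw [pol_ker_inv r hwU e₁ j (ker_st (hrel ℓ e₁) j)] at h7
  have c₀ := r₀.pol_coeff hwU j
  have c := r.pol_coeff hwU j
  refine ⟨R.reverse, ?_, ?_⟩
  · rw [← reverse_rev c₀, h6, reverse_map_inj _ (algebraMap ℚ (Ql ℓ₀)).injective]
    congr 1
  · obtain ⟨s, hs⟩ := h7
    rw [← reverse_rev c, hs, reverse_mul_of_domain,
      reverse_map_inj _ (algebraMap ℚ (Ql ℓ)).injective]
    refine Dvd.intro s.reverse ?_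
    congr 2

end family

end Pool.Agent.Q219.DG
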