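import Pool.Agent.Q219.WD.Tr

/-!
# Dimensions of the kernels of the powers of `N` and the weight-monodromy conjecture
-/

set_option autoImplicit false
set_option linter.unusedSectionVars false

open Polynomial

namespace Pool.Agent.Q219.DG

open Pool.Agent.Q219.WD
open Pool.Agent.Q226.IL (ev ev_X ev_C ev_comm wt Mixed MonodromyWeight Killed IsProjTo PureWt
  exists_proj N_wt)

section single

variable {K V : Type} [Field K] [CharZero K] [AddCommGroup V] [Module K V]
  [FiniteDimensional K V] {q : ℕ} {S : Finset ℤ} {g : ℤ → ℚ[X]} {Φ N : Module.End K V} {w : ℤ}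

lemma trOn_one (U : Submodule K V) : trOn (1 : Module.End K V) U = (Module.finrank K U : K) := by
  have h : ∀ v ∈ U, (1 : Module.End K V) v ∈ U := fun v hv => hv
  rw [trOn_eq h, ← LinearMap.trace_one]
  congr 1

/-- the decomposition of a stable subspace -/
lemma finrank_sum (hq : 2 ≤ q) (hK : Killed q S g Φ) {U : Submodule K V}
    (h : ∀ v ∈ U, Φ v ∈ U) :
    Module.finrank K U = ∑ a ∈ S, Module.finrank K ((wt q Φ a).submoduleOf U) := by
  choose Q hQ' using fun a : ℤ => exists_proj hq S g hK.pure a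
  have hQ : ∀ a, IsProjTo q Φ a (Q a) := fun a => hQ' a K V Φ hK
  have h1 : ∑ a ∈ S, ev Φ (Q a - Q (a - 1)) = 1 := by
    refine hK.ext hq fun j v hv => ?_
    rw [LinearMap.sum_apply, Module.End.one_apply]
    by_cases hj : j ∈ S
    · rw [Finset.sum_eq_single_of_mem j hj]
      · rw [map_sub, LinearMap.sub_apply, (hQ j).le j le_rfl v hv,
          (hQ (j - 1)).gt j (by omega) v hv, sub_zero]
      · intro b _ hb
        rw [map_sub, LinearMap.sub_apply]
        rcases lt_or_gt_of_ne hb with hbj | hbj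
        · rw [(hQ b).gt j hbj v hv, (hQ (b - 1)).gt j (by omega) v hv, sub_self]
        · rw [(hQ b).le j hbj.le v hv, (hQ (b - 1)).le j (by omega) v hv, sub_self]
    · have h0 : v = 0 := hK.eq_zero hq hj hv
      rw [h0]
      simp
  have h2 : trOn (1 : Module.End K V) U =
      ∑ a ∈ S, trOn (ev Φ (Q a - Q (a - 1))) U := by
    rw [← h1, trOn_sum S _ (fun a _ => ev_stable h _)]
  rw [trOn_one, Finset.sum_congr rfl fun a _ => trOn_wt hq hK (hQ a) (hQ (a - 1)) h] at h2
  exact_mod_cast h2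

lemma finrank_submoduleOf (A B : Submodule K V) :
    Module.finrank K (A.submoduleOf B) = Module.finrank K (B ⊓ A : Submodule K V) := by
  have h1 : A.submoduleOf B = (B ⊓ A).submoduleOf B := by
    ext x
    constructor
    · intro hx
      exact ⟨x.2, hx⟩
    · intro hx
      exact hx.2
  rw [h1]
  exact (Submodule.submoduleOfEquivOfLe inf_le_left).finrank_eq

/-- rank and nullity for `N ^ j` on the part of weight `a` -/
lemma rank_nullity (hq : 2 ≤ q) (hN : N * Φ = (q : K) • (Φ * N)) (j : ℕ) (a : ℤ) :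
    Module.finrank K (wt q Φ a) ≤ Module.finrank K ((wt q Φ a).submoduleOf (LinearMap.ker (N ^ j))) +
        Module.finrank K (wt q Φ (a - 2 * j)) ∧
      (Set.SurjOn (N ^ j) (wt q Φ a) (wt q Φ (a - 2 * j)) →
        Module.finrank K (wt q Φ a) =
          Module.finrank K ((wt q Φ a).submoduleOf (LinearMap.ker (N ^ j))) +
            Module.finrank K (wt q Φ (a - 2 * j))) := by
  have hmaps : ∀ v ∈ wt q Φ a, (N ^ j) v ∈ wt q Φ (a - 2 * j) := fun v hv => N_wt_pow hq hN j hv
  let f : wt q Φ a →ₗ[K] wt q Φ (a - 2 * j) := (N ^ j).restrict hmaps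
  have hker : Module.finrank K (LinearMap.ker f) =
      Module.finrank K ((wt q Φ a).submoduleOf (LinearMap.ker (N ^ j))) := by
    have e : LinearMap.ker f = (LinearMap.ker (N ^ j)).submoduleOf (wt q Φ a) := by
      ext x
      rw [LinearMap.mem_ker]
      constructor
      · intro hx
        exact congrArg Subtype.val hx
      · intro hx
        exact Subtype.ext hx
    rw [e, finrank_submoduleOf, finrank_submoduleOf, inf_comm]
  have h1 := LinearMap.finrank_range_add_finrank_ker f
  rw [hker] at h1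
  have h2 := Submodule.finrank_le (LinearMap.range f)
  refine ⟨by omega, fun hs => ?_⟩
  have h3 : LinearMap.range f = ⊤ := by
    rw [LinearMap.range_eq_top]
    intro y
    obtain ⟨x, hx, hxy⟩ := hs y.2
    exact ⟨⟨x, hx⟩, Subtype.ext hxy⟩
  rw [h3, finrank_top] at h1
  omega

/-- the powers of `N` on the parts of the various weights, if `N` is pure -/
lemma injOn_of_le (hM : MonodromyWeight q w Φ N) {j k : ℕ} (hjk : j ≤ k) :
    (wt q Φ (w + k)).submoduleOf (LinearMap.ker (N ^ j)) = ⊥ := by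
  rw [Submodule.eq_bot_iff]
  intro x hx
  refine Subtype.ext ((hM k).injOn (show (x : V) ∈ wt q Φ (w + k) from hx)
    (Submodule.zero_mem _) ?_)
  obtain ⟨d, rfl⟩ := Nat.exists_eq_add_of_le hjk
  have h0 : (N ^ j) (x : V) = 0 := x.2
  show (N ^ (j + d)) (x : V) = (N ^ (j + d)) (0 : V)
  rw [add_comm, pow_add, Module.End.mul_apply, h0, map_zero, map_zero]

lemma surjOn_of_lt (hq : 2 ≤ q) (hN : N * Φ = (q : K) • (Φ * N)) (hM : MonodromyWeight q w Φ N)
    {j : ℕ} {a : ℤ} (ha : a < w + j) : Set.SurjOn (N ^ j) (wt q Φ a) (wt q Φ (a - 2 * j)) := by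
  intro y hy
  obtain ⟨d, hd⟩ : ∃ d : ℕ, a = w + j - d := ⟨(w + j - a).toNat, by omega⟩
  have e1 : a - 2 * (j : ℤ) = w - ((j + d : ℕ) : ℤ) := by push_cast; omega
  rw [e1] at hy
  obtain ⟨x, hx, hxy⟩ := (hM (j + d)).surjOn hy
  refine ⟨(N ^ d) x, ?_, ?_⟩
  · have h1 := N_wt_pow hq hN d hx
    have e2 : w + ((j + d : ℕ) : ℤ) - 2 * d = a := by push_cast; omega
    rwa [e2] at h1
  · rw [← Module.End.mul_apply, ← pow_add]
    exact hxy

end single

section two

variable {K V K' V' : Type} [Field K] [CharZero K] [AddCommGroup V] [Module K V]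
  [FiniteDimensional K V] [Field K'] [CharZero K'] [AddCommGroup V'] [Module K' V']
  [FiniteDimensional K' V'] {q : ℕ} {S : Finset ℤ} {g : ℤ → ℚ[X]} {Φ N : Module.End K V}
  {Φ' N' : Module.End K' V'} {w : ℤ}

/-- the parts of the kernels are smallest if `N` is pure -/
lemma part_le (hq : 2 ≤ q) (hN : N * Φ = (q : K) • (Φ * N)) (hN' : N' * Φ' = (q : K') • (Φ' * N'))
    (hd : ∀ a, Module.finrank K (wt q Φ a) = Module.finrank K' (wt q Φ' a))
    (hM : MonodromyWeight q w Φ N) (j : ℕ) (a : ℤ) :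
    Module.finrank K ((wt q Φ a).submoduleOf (LinearMap.ker (N ^ j))) ≤
      Module.finrank K' ((wt q Φ' a).submoduleOf (LinearMap.ker (N' ^ j))) := by
  by_cases ha : a < w + j
  · have h1 := (rank_nullity hq hN j a).2 (surjOn_of_lt hq hN hM ha)
    have h2 := (rank_nullity hq hN' j a).1
    rw [← hd, ← hd] at h2
    omega
  · obtain ⟨k, hk⟩ : ∃ k : ℕ, a = w + k := ⟨(a - w).toNat, by omega⟩
    have hjk : j ≤ k := by omega
    rw [hk, injOn_of_le hM hjk, finrank_bot]
    exact Nat.zero_le _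

/-- **The kernels of the powers of `N` are smallest if `N` is pure.** -/
theorem ker_le (hq : 2 ≤ q) (hK : Killed q S g Φ) (hK' : Killed q S g Φ')
    (hN : N * Φ = (q : K) • (Φ * N)) (hN' : N' * Φ' = (q : K') • (Φ' * N'))
    (hd : ∀ a, Module.finrank K (wt q Φ a) = Module.finrank K' (wt q Φ' a))
    (hM : MonodromyWeight q w Φ N) (j : ℕ) :
    Module.finrank K (LinearMap.ker (N ^ j)) ≤ Module.finrank K' (LinearMap.ker (N' ^ j)) := by
  rw [finrank_sum hq hK (ker_stable hN j), finrank_sum hq hK' (ker_stable hN' j)]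
  exact Finset.sum_le_sum fun a _ => part_le hq hN hN' hd hM j a

/-- **Purity depends only on the dimensions of the kernels of the powers of `N`.** -/
theorem purity_of_dim (hq : 2 ≤ q) (hK : Killed q S g Φ) (hK' : Killed q S g Φ')
    (hN : N * Φ = (q : K) • (Φ * N)) (hN' : N' * Φ' = (q : K') • (Φ' * N'))
    (hd : ∀ a, Module.finrank K (wt q Φ a) = Module.finrank K' (wt q Φ' a))
    (hM : MonodromyWeight q w Φ N)
    (hle : ∀ j, Module.finrank K' (LinearMap.ker (N' ^ j)) ≤ Module.finrank K (LinearMap.ker (N ^ j))) :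
    MonodromyWeight q w Φ' N' := by
  have hdim : ∀ (j : ℕ) (a : ℤ),
      Module.finrank K ((wt q Φ a).submoduleOf (LinearMap.ker (N ^ j))) =
        Module.finrank K' ((wt q Φ' a).submoduleOf (LinearMap.ker (N' ^ j))) := by
    intro j a
    by_cases ha : a ∈ S
    · have h1 := le_antisymm (ker_le hq hK hK' hN hN' hd hM j) (hle j)
      rw [finrank_sum hq hK (ker_stable hN j), finrank_sum hq hK' (ker_stable hN' j)] at h1
      exact (Finset.sum_eq_sum_iff_of_le fun a _ => part_le hq hN hN' hd hM j a).1 h1 a ha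
    · have e1 : (wt q Φ a).submoduleOf (LinearMap.ker (N ^ j)) = ⊥ := by
        rw [Submodule.eq_bot_iff]
        intro x hx
        exact Subtype.ext (hK.eq_zero hq ha (show (x : V) ∈ wt q Φ a from hx))
      have e2 : (wt q Φ' a).submoduleOf (LinearMap.ker (N' ^ j)) = ⊥ := by
        rw [Submodule.eq_bot_iff]
        intro x hx
        exact Subtype.ext (hK'.eq_zero hq ha (show (x : V') ∈ wt q Φ' a from hx))
      rw [e1, e2, finrank_bot, finrank_bot]
  intro k
  have ew : w + (k : ℤ) - 2 * k = w - k := by ring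
  have hmaps' : ∀ v ∈ wt q Φ' (w + k), (N' ^ k) v ∈ wt q Φ' (w - k) := fun v hv => by
    rw [← ew]
    exact N_wt_pow hq hN' k hv
  have hmaps : ∀ v ∈ wt q Φ (w + k), (N ^ k) v ∈ wt q Φ (w - k) := fun v hv => by
    rw [← ew]
    exact N_wt_pow hq hN k hv
  -- injectivity
  have hinj : ∀ v ∈ wt q Φ' (w + k), (N' ^ k) v = 0 → v = 0 := by
    have e1 := hdim k (w + k)
    rw [injOn_of_le hM le_rfl, finrank_bot] at e1
    have e2 := Submodule.finrank_eq_zero.1 e1.symm
    intro v hv hv0
    have e3 : (⟨v, hv0⟩ : LinearMap.ker (N' ^ k)) ∈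
        (wt q Φ' (w + k)).submoduleOf (LinearMap.ker (N' ^ k)) := hv
    rw [e2, Submodule.mem_bot] at e3
    exact congrArg Subtype.val e3
  have hinjOn : Set.InjOn (N' ^ k) (wt q Φ' (w + k)) := by
    intro x hx y hy hxy
    rw [← sub_eq_zero]
    refine hinj _ (Submodule.sub_mem _ hx hy) ?_
    rw [map_sub, sub_eq_zero]
    exact hxy
  refine ⟨hmaps', hinjOn, ?_⟩
  -- surjectivity
  let f : wt q Φ (w + k) →ₗ[K] wt q Φ (w - k) := (N ^ k).restrict hmaps
  let f' : wt q Φ' (w + k) →ₗ[K'] wt q Φ' (w - k) := (N' ^ k).restrict hmaps'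
  have hf : Function.Bijective f := by
    constructor
    · intro x y hxy
      exact Subtype.ext ((hM k).injOn x.2 y.2 (congrArg Subtype.val hxy))
    · intro y
      obtain ⟨x, hx, hxy⟩ := (hM k).surjOn y.2
      exact ⟨⟨x, hx⟩, Subtype.ext hxy⟩
  have hr : Module.finrank K' (wt q Φ' (w + k)) = Module.finrank K' (wt q Φ' (w - k)) := by
    rw [← hd, ← hd]
    exact (LinearEquiv.ofBijective f hf).finrank_eq
  have hf' : Function.Injective f' := by
    intro x y hxy
    exact Subtype.ext (hinjOn x.2 y.2 (congrArg Subtype.val hxy))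
  have hs := (LinearMap.injective_iff_surjective_of_finrank_eq_finrank hr).1 hf'
  intro y hy
  obtain ⟨x, hx⟩ := hs ⟨y, hy⟩
  exact ⟨x, x.2, congrArg Subtype.val hx⟩

/-- the dimensions of the parts of the various weights, from the traces -/
theorem finrank_wt_eq (hq : 2 ≤ q) (hK : Killed q S g Φ) (hK' : Killed q S g Φ')
    (hτ : ∀ m : ℕ, ∃ τ : ℚ, LinearMap.trace K V (Φ ^ m) = algebraMap ℚ K τ ∧
      LinearMap.trace K' V' (Φ' ^ m) = algebraMap ℚ K' τ) (a : ℤ) :
    Module.finrank K (wt q Φ a) = Module.finrank K' (wt q Φ' a) := by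
  choose τ h1 h2 using hτ
  obtain ⟨P, hP⟩ := exists_proj hq S g hK.pure a
  obtain ⟨P', hP'⟩ := exists_proj hq S g hK.pure (a - 1)
  have e1 := trOn_wt (U := ⊤) hq hK (hP K V Φ hK) (hP' K V Φ hK) (fun v _ => Submodule.mem_top)
  have e2 := trOn_wt (U := ⊤) hq hK' (hP K' V' Φ' hK') (hP' K' V' Φ' hK')
    (fun v _ => Submodule.mem_top)
  rw [trOn_ev (fun v _ => Submodule.mem_top) (τ := τ) fun m => by rw [trOn_top rfl, h1]] at e1
  rw [trOn_ev (fun v _ => Submodule.mem_top) (τ := τ) fun m => by rw [trOn_top rfl, h2]] at e2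
  have e3 : ((P - P').sum fun m b => b * τ m) =
      (Module.finrank K ((wt q Φ a).submoduleOf (⊤ : Submodule K V)) : ℚ) :=
    (algebraMap ℚ K).injective (by rw [e1, map_natCast])
  rw [e3, map_natCast] at e2
  have e4 : Module.finrank K ((wt q Φ a).submoduleOf (⊤ : Submodule K V)) =
      Module.finrank K' ((wt q Φ' a).submoduleOf (⊤ : Submodule K' V')) := by exact_mod_cast e2
  rwa [finrank_submoduleOf, finrank_submoduleOf, top_inf_eq, top_inf_eq] at e4

end two

end Pool.Agent.Q219.DG
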