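import Pool.Agent.Q219.DG.Lin
import Pool.Agent.Q219.DG.Defs
import Pool.Agent.Q219.WD.Two

/-!
# Two primes
-/

set_option autoImplicit false
set_option linter.unusedSectionVars false

open Polynomial

namespace Pool.Agent.Q219.DG

open Pool.Agent.Q173.WD
open Pool.Agent.Q219.WD (trOn trOn_eq trOn_sum trOn_smul trOn_idem trOn_congr trace_ker_pow
  trace_mul_ev wt_stable ker_stable)
open Pool.Agent.Q226.IL (ev ev_X ev_C ev_comm wt Mixed MonodromyWeight Killed IsProjTo PureWt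
  exists_proj killed_of_traces avg Quo r_avg avg_r avg_fix fix_avg avg_idem avg_comm
  avg_apply_fix)

section lin

variable {K V K' V' : Type} [Field K] [CharZero K] [AddCommGroup V] [Module K V]
  [FiniteDimensional K V] [Field K'] [CharZero K'] [AddCommGroup V'] [Module K' V']
  [FiniteDimensional K' V'] {q : ℕ} {S : Finset ℤ} {g : ℤ → ℚ[X]} {Φ N : Module.End K V}
  {Φ' N' : Module.End K' V'} {w : ℤ}

/-- the dimensions, from the traces of the positive powers -/
theorem trace_zero (hq : 2 ≤ q) (hK : Killed q S g Φ) (hK' : Killed q S g Φ')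
    (hτ : ∀ m : ℕ, ∃ τ : ℚ, LinearMap.trace K V (Φ ^ (m + 1)) = algebraMap ℚ K τ ∧
      LinearMap.trace K' V' (Φ' ^ (m + 1)) = algebraMap ℚ K' τ) :
    ∀ m : ℕ, ∃ τ : ℚ, LinearMap.trace K V (Φ ^ m) = algebraMap ℚ K τ ∧
      LinearMap.trace K' V' (Φ' ^ m) = algebraMap ℚ K' τ := by
  rintro (_ | m)
  · choose τ h1 h2 using hτ
    set f : ℚ[X] := ∏ j ∈ S, g j with hf
    have hf0 : f.coeff 0 ≠ 0 := by
      rw [coeff_zero_eq_eval_zero, hf, eval_prod, Finset.prod_ne_zero_iff]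
      intro j _ h0
      have h3 := (hK.pure j).2 0 (by
        rw [← Polynomial.coeff_zero_eq_aeval_zero', coeff_zero_eq_eval_zero, h0, map_zero])
      rw [norm_zero, zero_pow two_ne_zero] at h3
      have h4 : (0 : ℝ) < (q : ℝ) ^ j := zpow_pos (by
        have : 0 < q := by omega
        exact_mod_cast this) j
      linarith
    set h : ℚ[X] := 1 - C (f.coeff 0)⁻¹ * f with hh
    have hh0 : h.coeff 0 = 0 := by
      rw [hh, coeff_sub, coeff_C_mul, coeff_one_zero, inv_mul_cancel₀ hf0, sub_self]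
    have hX : h = X * h.divX := by
      have h3 := Polynomial.X_mul_divX_add h
      rw [hh0, C_0, add_zero] at h3
      exact h3.symm
    have key : ∀ (K V : Type) [Field K] [CharZero K] [AddCommGroup V] [Module K V]
        [FiniteDimensional K V] (Φ : Module.End K V), Killed q S g Φ →
        (∀ m : ℕ, LinearMap.trace K V (Φ ^ (m + 1)) = algebraMap ℚ K (τ m)) →
        LinearMap.trace K V (Φ ^ 0) = algebraMap ℚ K (h.divX.sum fun m a => a * τ m) := by
      intro K V _ _ _ _ _ Φ hK h1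
      have h3 : ev Φ h = 1 := by
        rw [hh, map_sub, map_one, map_mul, hf, hK.kill, mul_zero, sub_zero]
      have h4 : Φ ^ 0 = Φ * ev Φ h.divX := by
        conv_lhs => rw [pow_zero, ← h3, hX]
        rw [map_mul, ev_X]
      rw [h4]
      refine trace_mul_ev (fun m => ?_) _
      rw [← pow_succ', h1]
    exact ⟨_, key K V Φ hK h1, key K' V' Φ' hK' h2⟩
  · exact hτ m

end lin

section rep

variable {Ω : Type} [Field Ω] [CharZero Ω] {W : Type} [Group W] [TopologicalSpace W]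
  {ν : W →* Multiplicative ℤ} {p : ℕ}

/-- the action as a representation -/
def toRep {A : Dat Ω W} (h : A.IsRep ν p) : Representation Ω W A.V where
  toFun w := A.ρ w
  map_one' := by
    ext x
    exact h.one' x
  map_mul' a b := by
    ext x
    exact h.mul' a b x

lemma toRep_apply {A : Dat Ω W} (h : A.IsRep ν p) (w : W) : toRep h w = A.ρ w := rfl

lemma rho_mul {A : Dat Ω W} (h : A.IsRep ν p) (a b : W) : A.ρ (a * b) = A.ρ a * A.ρ b :=
  map_mul (toRep h) a b

lemma rho_pow {A : Dat Ω W} (h : A.IsRep ν p) (a : W) (m : ℕ) : A.ρ (a ^ m) = A.ρ a ^ m :=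
  map_pow (toRep h) a m

lemma N_rho {A : Dat Ω W} (h : A.IsRep ν p) (w : W) :
    (A.N : Module.End Ω A.V) * A.ρ w = ((p : Ω) ^ dg ν w) • ((A.ρ w : Module.End Ω A.V) * A.N) := by
  ext x
  exact h.rel' w x

lemma N_frob {A : Dat Ω W} (h : A.IsRep ν p) {F : W} (hF : dg ν F = 1) :
    (A.N : Module.End Ω A.V) * A.ρ F = (p : Ω) • ((A.ρ F : Module.End Ω A.V) * A.N) := by
  rw [N_rho h, hF, zpow_one]

/-- a power of Frobenius commutes with a given element -/
lemma exists_commute {A : Dat Ω W} (h : A.IsRep ν p)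
    (hfin : (Set.range fun g : ν.ker => A.ρ g).Finite) (F w : W) :
    ∃ k, 0 < k ∧ (A.ρ F : Module.End Ω A.V) ^ k * A.ρ w = A.ρ w * (A.ρ F : Module.End Ω A.V) ^ k := by
  have hmem : ∀ m : ℕ, w⁻¹ * (F ^ m * w * (F ^ m)⁻¹) ∈ ν.ker := by
    intro m
    rw [← dg_eq_zero]
    simp only [dg_mul, dg_inv]
    ring
  have : Finite (Set.range fun g : ν.ker => A.ρ g) := hfin
  let f : ℕ → Set.range fun g : ν.ker => A.ρ g := fun m => ⟨A.ρ _, ⟨⟨_, hmem m⟩, rfl⟩⟩
  obtain ⟨a, b, hab, he⟩ : ∃ a b : ℕ, a < b ∧ f a = f b := by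
    obtain ⟨a, b, hab, he⟩ := Finite.exists_ne_map_eq_of_infinite f
    rcases lt_or_gt_of_ne hab with h1 | h1
    · exact ⟨a, b, h1, he⟩
    · exact ⟨b, a, h1, he.symm⟩
  obtain ⟨k, rfl⟩ := Nat.exists_eq_add_of_lt hab
  have h1 : A.ρ (w⁻¹ * (F ^ a * w * (F ^ a)⁻¹)) =
      A.ρ (w⁻¹ * (F ^ (a + k + 1) * w * (F ^ (a + k + 1))⁻¹)) := congrArg Subtype.val he
  refine ⟨k + 1, Nat.succ_pos k, ?_⟩
  have h2 := congrArg (fun B : Module.End Ω A.V => (A.ρ ((F ^ a)⁻¹ * w) : Module.End Ω A.V) * B *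
    A.ρ (F ^ (a + k + 1))) h1
  simp only [← rho_mul h] at h2
  have e1 : (F ^ a)⁻¹ * w * (w⁻¹ * (F ^ a * w * (F ^ a)⁻¹)) * F ^ (a + k + 1) =
      w * F ^ (k + 1) := by
    rw [add_assoc, pow_add]
    group
  have e2 : (F ^ a)⁻¹ * w * (w⁻¹ * (F ^ (a + k + 1) * w * (F ^ (a + k + 1))⁻¹)) *
      F ^ (a + k + 1) = F ^ (k + 1) * w := by
    rw [add_assoc, pow_add]
    group
  rw [e1, e2, rho_mul h, rho_mul h, rho_pow h] at h2
  exact h2.symm

/-- elements preserve the weights -/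
lemma rho_wt {A : Dat Ω W} (h : A.IsRep ν p)
    (hfin : (Set.range fun g : ν.ker => A.ρ g).Finite) (F w : W) (q : ℕ) (a : ℤ) :
    ∀ v ∈ wt q (A.ρ F : Module.End Ω A.V) a, A.ρ w v ∈ wt q (A.ρ F : Module.End Ω A.V) a := by
  obtain ⟨k, hk, hc⟩ := exists_commute h hfin F w
  exact wt_stable hk hc a

/-- the mean value commutes with the elements which normalize the subgroup -/
lemma avg_norm {V : Type} [AddCommGroup V] [Module Ω V] {I J : Subgroup W} [J.Normal]
    [Fintype (Quo I J)] {r : Representation Ω W V} (hJ : J ≤ MonoidHom.ker r) {F : W}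
    (h1 : ∀ g ∈ I, F⁻¹ * g * F ∈ I) (h2 : ∀ g ∈ I, F * g * F⁻¹ ∈ I) :
    r F * avg I J r = avg I J r * r F := by
  have h3 : avg I J r * (r F * avg I J r) = r F * avg I J r := by
    refine avg_fix fun g hg => ?_
    have h3 : r g * r F = r F * r (F⁻¹ * g * F) := by
      rw [← map_mul, ← map_mul]
      congr 1
      group
    rw [← mul_assoc, h3, mul_assoc, r_avg hJ (h1 g hg)]
  have h4 : avg I J r * r F * avg I J r = avg I J r * r F := by
    refine fix_avg fun g hg => ?_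
    have h3 : r F * r g = r (F * g * F⁻¹) * r F := by
      rw [← map_mul, ← map_mul]
      congr 1
      group
    rw [mul_assoc, h3, ← mul_assoc, avg_r hJ (h2 g hg)]
  rw [← h3, ← mul_assoc, h4]

/-- **The trace on the inertia invariants of a subgroup in the kernel of `N ^ j`.** -/
theorem trace_inv {A : Dat Ω W} (h : A.IsRep ν p) {U I J : Subgroup W} [J.Normal]
    [Fintype (Quo I J)] (hI : I = U ⊓ ν.ker) (hJ : J ≤ MonoidHom.ker (toRep h)) {w : W}
    (hw : w ∈ U) (j : ℕ) :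
    trOn (A.ρ w : Module.End Ω A.V) (A.inv ν U j) =
      (Fintype.card (Quo I J) : Ω)⁻¹ * ∑ x : Quo I J,
        trOn (A.ρ (w * ((x.out : I) : W)) : Module.End Ω A.V)
          (LinearMap.ker ((A.N : Module.End Ω A.V) ^ j)) := by
  have hmem : ∀ g, g ∈ I ↔ g ∈ U ∧ g ∈ ν.ker := by
    intro g
    rw [hI]
    exact Subgroup.mem_inf
  have hst : ∀ a : W, ∀ v ∈ LinearMap.ker ((A.N : Module.End Ω A.V) ^ j),
      A.ρ a v ∈ LinearMap.ker ((A.N : Module.End Ω A.V) ^ j) := fun a => h.ker_map a j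
  have hnorm : ∀ g ∈ I, w * g * w⁻¹ ∈ I := by
    intro g hg
    rw [hmem] at hg ⊢
    refine ⟨U.mul_mem (U.mul_mem hw hg.1) (U.inv_mem hw), ?_⟩
    exact ν.normal_ker.conj_mem g hg.2 w
  have hnorm' : ∀ g ∈ I, w⁻¹ * g * w ∈ I := by
    intro g hg
    rw [hmem] at hg ⊢
    refine ⟨U.mul_mem (U.mul_mem (U.inv_mem hw) hg.1) hw, ?_⟩
    have := ν.normal_ker.conj_mem g hg.2 w⁻¹
    rwa [inv_inv] at this
  have hN : ∀ g ∈ I, (A.N : Module.End Ω A.V) * toRep h g = toRep h g * A.N := by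
    intro g hg
    rw [toRep_apply, N_rho h, dg_eq_zero.2 ((hmem g).1 hg).2, zpow_zero, one_smul]
  have hNj : (A.N : Module.End Ω A.V) ^ j * avg I J (toRep h) =
      avg I J (toRep h) * (A.N : Module.End Ω A.V) ^ j := by
    have h1 : Commute (A.N : Module.End Ω A.V) (avg I J (toRep h)) := avg_comm hN
    exact (h1.pow_left j).eq
  have heU : ∀ v ∈ LinearMap.ker ((A.N : Module.End Ω A.V) ^ j),
      avg I J (toRep h) v ∈ LinearMap.ker ((A.N : Module.End Ω A.V) ^ j) := by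
    intro v hv
    rw [LinearMap.mem_ker] at hv ⊢
    rw [← Module.End.mul_apply, hNj, Module.End.mul_apply, hv, map_zero]
  rw [trOn_idem (U := LinearMap.ker ((A.N : Module.End Ω A.V) ^ j)) (e := avg I J (toRep h))
    (hst w) heU]
  · have h1 : (A.ρ w : Module.End Ω A.V) * avg I J (toRep h) = (Fintype.card (Quo I J) : Ω)⁻¹ •
        ∑ x : Quo I J, (A.ρ (w * ((x.out : I) : W)) : Module.End Ω A.V) := by
      rw [avg, mul_smul_comm, Finset.mul_sum]
      congr 1
      refine Finset.sum_congr rfl fun x _ => ?_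
      rw [rho_mul h, toRep_apply]
    rw [h1, trOn_smul, trOn_sum]
    · exact fun x _ => hst _
    · intro v hv
      rw [LinearMap.sum_apply]
      exact Submodule.sum_mem _ fun x _ => hst _ v hv
  · intro v
    rw [A.mem_inv, LinearMap.mem_ker]
    constructor
    · rintro ⟨h1, h2⟩
      exact ⟨h1, avg_apply_fix fun g hg => h2 g ((hmem g).1 hg).1 ((hmem g).1 hg).2⟩
    · rintro ⟨h1, h2⟩
      refine ⟨h1, fun g hg hν => ?_⟩
      have h3 := r_avg (I := I) hJ (g := g) ((hmem g).2 ⟨hg, hν⟩)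
      have h4 := LinearMap.congr_fun h3 v
      rw [Module.End.mul_apply, h2] at h4
      exact h4
  · intro v _
    rw [← Module.End.mul_apply, avg_idem hJ]
  · intro v _
    have h1 := avg_norm (I := I) hJ hnorm' hnorm
    have h2 := LinearMap.congr_fun h1 v
    rw [Module.End.mul_apply, Module.End.mul_apply] at h2
    exact h2.symm

end rep

end Pool.Agent.Q219.DG
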