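import Pool.Agent.Q219.DG.Main

/-!
# Divisibility of the characteristic polynomials on the kernels of the powers of `N`
-/

set_option autoImplicit false
set_option linter.unusedSectionVars false

open Polynomial

namespace Pool.Agent.Q219.DG

open Pool.Agent.Q173.WD
open Pool.Agent.Q219.WD (trOn trOn_eq trOn_top trOn_pow trOn_idem ker_pow proj_pow N_wt_pow
  trace_mul_ev)
open Pool.Agent.Q226.IL (ev ev_X ev_C ev_comm wt Mixed MonodromyWeight Killed IsProjTo PureWt
  exists_proj N_wt)
open Pool.Agent.Q187.IL (indep_iff revPoly Indep IndepTrace)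

section seq

variable {K V : Type} [Field K] [CharZero K] [AddCommGroup V] [Module K V] [FiniteDimensional K V]

lemma charpoly_mul (f : V →ₗ[K] V) (S : Submodule K V) (h : ∀ x ∈ S, f x ∈ S) :
    f.charpoly = (f.restrict h).charpoly * (S.mapQ S f h).charpoly := by
  apply Polynomial.funext
  intro t
  rw [eval_mul, LinearMap.eval_charpoly, LinearMap.eval_charpoly, LinearMap.eval_charpoly]
  have h' : S ≤ S.comap (algebraMap K (Module.End K V) t - f) := by
    intro x hx
    rw [Submodule.mem_comap, LinearMap.sub_apply, Module.algebraMap_end_apply]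
    exact S.sub_mem (S.smul_mem t hx) (h x hx)
  rw [LinearMap.det_eq_det_mul_det S _ h']
  congr 2
  apply LinearMap.ext
  intro y
  obtain ⟨x, rfl⟩ := S.mkQ_surjective y
  simp [Submodule.mapQ_apply]

/-- kernel and image of an equivariant map on a stable subspace -/
lemma resChar_seq {f g L : V →ₗ[K] V} {U : Submodule K V} (hU : ∀ x ∈ U, f x ∈ U)
    (h : ∀ x, L (f x) = g (L x)) :
    resChar f U = resChar f (U ⊓ LinearMap.ker L) * resChar g (U.map L) := by
  have h1 : ∀ x ∈ U ⊓ LinearMap.ker L, f x ∈ U ⊓ LinearMap.ker L := by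
    rintro x ⟨hx, hx'⟩
    refine ⟨hU x hx, ?_⟩
    have hx'' : L x = 0 := hx'
    show L (f x) = 0
    rw [h, hx'', map_zero]
  have h2 : ∀ y ∈ U.map L, g y ∈ U.map L := by
    rintro _ ⟨x, hx, rfl⟩
    exact ⟨f x, hU x hx, h x⟩
  set L₁ : U →ₗ[K] V := L.domRestrict U with hL₁
  have hL : ∀ x : U, L₁ x = L x := fun x => rfl
  have hS : ∀ x ∈ LinearMap.ker L₁, f.restrict hU x ∈ LinearMap.ker L₁ := by
    intro x hx
    rw [LinearMap.mem_ker, hL] at hx ⊢
    show L (f x) = 0
    rw [h, hx, map_zero]
  rw [resChar_eq hU, charpoly_mul (f.restrict hU) (LinearMap.ker L₁) hS]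
  congr 1
  · rw [resChar_eq h1]
    refine charpoly_eq_of_equiv _ _
      { toFun := fun x => ⟨x.1.1, x.1.2, x.2⟩
        map_add' := fun _ _ => rfl
        map_smul' := fun _ _ => rfl
        invFun := fun y => ⟨⟨y.1, y.2.1⟩, y.2.2⟩
        left_inv := fun _ => rfl
        right_inv := fun _ => rfl } ?_
    intro x
    rfl
  · rw [resChar_eq h2]
    have hr : LinearMap.range L₁ = U.map L := LinearMap.range_domRestrict U L
    refine charpoly_eq_of_equiv _ _ (L₁.quotKerEquivRange.trans (LinearEquiv.ofEq _ _ hr)) ?_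
    intro y
    obtain ⟨x, rfl⟩ := (LinearMap.ker L₁).mkQ_surjective y
    refine Subtype.ext ?_
    exact h x

lemma resChar_dvd {f : V →ₗ[K] V} {S U : Submodule K V} (hS : ∀ x ∈ S, f x ∈ S)
    (hU : ∀ x ∈ U, f x ∈ U) (hle : S ≤ U) : resChar f S ∣ resChar f U := by
  have h1 : ∀ x ∈ S.submoduleOf U, f.restrict hU x ∈ S.submoduleOf U := fun x hx => hS _ hx
  have h2 := charpoly_restrict_dvd (f.restrict hU) (S.submoduleOf U) h1
  rw [resChar_eq hS, resChar_eq hU]
  have h3 : (f.restrict hS).charpoly = ((f.restrict hU).restrict h1).charpoly :=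
    (charpoly_eq_of_equiv _ _ (Submodule.submoduleOfEquivOfLe hle) fun x => rfl).symm
  rw [h3]
  exact h2

end seq

section pair

/-- the family of the two types -/
@[reducible] def Two (A B : Type) : Bool → Type
  | true => A
  | false => B

noncomputable instance twoField (K K' : Type) [i : Field K] [j : Field K'] :
    ∀ b, Field (Two K K' b)
  | true => i
  | false => j

instance twoChar (K K' : Type) [Field K] [Field K'] [i : CharZero K] [j : CharZero K'] :
    ∀ b, CharZero (Two K K' b)
  | true => i
  | false => j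

instance twoGroup (V V' : Type) [i : AddCommGroup V] [j : AddCommGroup V'] :
    ∀ b, AddCommGroup (Two V V' b)
  | true => i
  | false => j

noncomputable instance twoModule (K V K' V' : Type) [Field K] [Field K'] [AddCommGroup V]
    [AddCommGroup V'] [i : Module K V] [j : Module K' V'] : ∀ b, Module (Two K K' b) (Two V V' b)
  | true => i
  | false => j

instance twoFinite (K V K' V' : Type) [Field K] [Field K'] [AddCommGroup V] [AddCommGroup V']
    [Module K V] [Module K' V'] [i : FiniteDimensional K V] [j : FiniteDimensional K' V'] :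
    ∀ b, FiniteDimensional (Two K K' b) (Two V V' b)
  | true => i
  | false => j

/-- **Newton's identities for two fields.** -/
theorem pair_poly {K V K' V' : Type} [Field K] [CharZero K] [AddCommGroup V] [Module K V]
    [FiniteDimensional K V] [Field K'] [CharZero K'] [AddCommGroup V'] [Module K' V']
    [FiniteDimensional K' V'] {f : Module.End K V} {g : Module.End K' V'}
    (h : ∀ m : ℕ, ∃ τ : ℚ, LinearMap.trace K V (f ^ (m + 1)) = algebraMap ℚ K τ ∧
      LinearMap.trace K' V' (g ^ (m + 1)) = algebraMap ℚ K' τ) :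
    ∃ R : ℚ[X], f.charpoly.reverse = R.map (algebraMap ℚ K) ∧
      g.charpoly.reverse = R.map (algebraMap ℚ K') := by
  choose t h1 h2 using h
  let ff : ∀ b, Two V V' b →ₗ[Two K K' b] Two V V' b
    | true => f
    | false => g
  obtain ⟨R, hR⟩ := (indep_iff (Two K K') (Two V V') ff).2 ⟨t, fun b n => by
    cases b
    · exact h2 n
    · exact h1 n⟩
  exact ⟨R, hR true, hR false⟩

end pair

end Pool.Agent.Q219.DG
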