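import Pool.Agent.Q219.DG.Pair

/-!
# Two primes: traces and dimensions
-/

set_option autoImplicit false
set_option linter.unusedSectionVars false

open Polynomial

namespace Pool.Agent.Q219.DG

open Pool.Agent.Q173.WD
open Pool.Agent.Q219.WD (trOn trOn_eq trOn_sum trOn_smul trOn_idem trOn_congr trace_ker_pow
  trace_mul_ev wt_stable ker_stable trOn_pow exists_common)
open Pool.Agent.Q226.IL (ev ev_X ev_C ev_comm wt Mixed MonodromyWeight Killed IsProjTo PureWt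
  exists_proj killed_of_traces avg Quo)
open Pool.Agent.Q187.IL (indep_iff revPoly)

variable {p : ℕ} [hp : Fact p.Prime] {W : Type} [Group W] [TopologicalSpace W]
  {ν : W →* Multiplicative ℤ} {C : Type*} {T : Theory p W C} {E : C → C} {F : W} {X : C}

lemma dg_pow (w : W) (m : ℕ) : dg ν (w ^ m) = m * dg ν w := by
  rw [← zpow_natCast, dg_zpow]

lemma SameTraces.pair (hS : SameTraces T ν X) (n : ℤ) {w : W} (hw : 0 < dg ν w) (ℓ₀ ℓ : Aux p) :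
    ∃ q : ℚ, LinearMap.trace (Ql ℓ₀) (T.H X ℓ₀ n).V ((T.H X ℓ₀ n).ρ w) = algebraMap ℚ (Ql ℓ₀) q ∧
      LinearMap.trace (Ql ℓ) (T.H X ℓ n).V ((T.H X ℓ n).ρ w) = algebraMap ℚ (Ql ℓ) q := by
  obtain ⟨q, hq⟩ := hS n w hw
  have h1 : LinearMap.trace (Ql ℓ₀) (T.H X ℓ₀ n).V ((T.H X ℓ₀ n).ρ w) = (q : Ql ℓ₀) := hq ℓ₀
  have h2 : LinearMap.trace (Ql ℓ) (T.H X ℓ n).V ((T.H X ℓ n).ρ w) = (q : Ql ℓ) := hq ℓ
  exact ⟨q, by rw [h1, eq_ratCast], by rw [h2, eq_ratCast]⟩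

lemma isUnit_rho {Ω : Type} [Field Ω] {A : Dat Ω W} (h : A.IsRep ν p) (w : W) :
    IsUnit (A.ρ w : Module.End Ω A.V) := by
  refine isUnit_iff_exists.2 ⟨A.ρ w⁻¹, ?_, ?_⟩
  · ext x
    show A.ρ w (A.ρ w⁻¹ x) = x
    rw [← h.mul', mul_inv_cancel, h.one']
  · ext x
    show A.ρ w⁻¹ (A.ρ w x) = x
    rw [← h.mul', inv_mul_cancel, h.one']

/-- the weights for two primes -/
lemma pair_killed (h : Facts T ν E) (hF : dg ν F = 1) (hS : SameTraces T ν X) (n : ℤ)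
    {ℓ₀ : Aux p} (hmix : Mixed p ((T.H X ℓ₀ n).ρ F)) (ℓ : Aux p) :
    ∃ (S : Finset ℤ) (g : ℤ → ℚ[X]), Killed p S g ((T.H X ℓ₀ n).ρ F) ∧
      Killed p S g ((T.H X ℓ n).ρ F) ∧
      ∀ a, Module.finrank (Ql ℓ₀) (wt p ((T.H X ℓ₀ n).ρ F) a) =
        Module.finrank (Ql ℓ) (wt p ((T.H X ℓ n).ρ F) a) := by
  have r₀ := h.known.rep X ℓ₀ n
  have r := h.known.rep X ℓ n
  have hτ : ∀ m : ℕ, ∃ τ : ℚ,
      LinearMap.trace (Ql ℓ₀) (T.H X ℓ₀ n).V (((T.H X ℓ₀ n).ρ F : Module.End _ _) ^ (m + 1)) =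
        algebraMap ℚ (Ql ℓ₀) τ ∧
      LinearMap.trace (Ql ℓ) (T.H X ℓ n).V (((T.H X ℓ n).ρ F : Module.End _ _) ^ (m + 1)) =
        algebraMap ℚ (Ql ℓ) τ := by
    intro m
    obtain ⟨q, h1, h2⟩ := hS.pair (w := F ^ (m + 1)) n (by
      rw [dg_pow, hF]
      push_cast
      positivity) ℓ₀ ℓ
    exact ⟨q, by rw [← rho_pow r₀, h1], by rw [← rho_pow r, h2]⟩
  have hτ' := hτ
  choose τ h1 h2 using hτ
  obtain ⟨S, g, hK, hK'⟩ := killed_of_traces (isUnit_rho r F) h1 h2 hmix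
  exact ⟨S, g, hK, hK', fun a => finrank_wt_eq hp.out.two_le hK hK'
    (trace_zero hp.out.two_le hK hK' hτ') a⟩

/-- the kernels of the powers of `N` are smallest for the primes with purity -/
lemma ker_le_of_wm (h : Facts T ν E) (hF : dg ν F = 1) (hS : SameTraces T ν X) (n : ℤ)
    {ℓ₀ : Aux p} (hW : WM T F ℓ₀ X) (ℓ : Aux p) (j : ℕ) :
    Module.finrank (Ql ℓ₀) (LinearMap.ker ((T.H X ℓ₀ n).N ^ j)) ≤
      Module.finrank (Ql ℓ) (LinearMap.ker ((T.H X ℓ n).N ^ j)) := by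
  obtain ⟨hmix, hM⟩ := hW n
  obtain ⟨S, g, hK, hK', hd⟩ := pair_killed h hF hS n hmix ℓ
  exact ker_le hp.out.two_le hK hK' (N_frob (h.known.rep X ℓ₀ n) hF)
    (N_frob (h.known.rep X ℓ n) hF) hd hM j

/-- purity from the dimensions -/
lemma wm_of_dim (h : Facts T ν E) (hF : dg ν F = 1) (hS : SameTraces T ν X) {ℓ₀ : Aux p}
    (hW : WM T F ℓ₀ X) (ℓ : Aux p)
    (hle : ∀ (n : ℤ) (j : ℕ), Module.finrank (Ql ℓ) (LinearMap.ker ((T.H X ℓ n).N ^ j)) ≤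
      Module.finrank (Ql ℓ₀) (LinearMap.ker ((T.H X ℓ₀ n).N ^ j))) : WM T F ℓ X := by
  intro n
  obtain ⟨hmix, hM⟩ := hW n
  obtain ⟨S, g, hK, hK', hd⟩ := pair_killed h hF hS n hmix ℓ
  exact ⟨⟨S, g, hK'.pure, hK'.kill⟩, purity_of_dim hp.out.two_le hK hK'
    (N_frob (h.known.rep X ℓ₀ n) hF) (N_frob (h.known.rep X ℓ n) hF) hd hM (hle n)⟩

/-- the traces on the kernels of the powers of `N`, for two primes with purity -/
lemma traces_ker (h : Facts T ν E) (hF : dg ν F = 1) (hS : SameTraces T ν X) (n : ℤ)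
    {ℓ₀ ℓ : Aux p} (hW₀ : WM T F ℓ₀ X) (hW : WM T F ℓ X) (j : ℕ) {w : W} (hw : 0 < dg ν w) :
    ∃ q : ℚ,
      trOn (T.H X ℓ₀ n |>.ρ w) (LinearMap.ker ((T.H X ℓ₀ n).N ^ j)) = algebraMap ℚ (Ql ℓ₀) q ∧
      trOn (T.H X ℓ n |>.ρ w) (LinearMap.ker ((T.H X ℓ n).N ^ j)) = algebraMap ℚ (Ql ℓ) q := by
  obtain ⟨hmix, hM₀⟩ := hW₀ n
  obtain ⟨-, hM⟩ := hW n
  obtain ⟨S, g, hK, hK', -⟩ := pair_killed h hF hS n hmix ℓ
  have r₀ := h.known.rep X ℓ₀ n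
  have r := h.known.rep X ℓ n
  have hp2 := hp.out.two_le
  obtain ⟨P, hP⟩ := exists_proj hp2 S g hK.pure (n + j - 1)
  obtain ⟨P', hP'⟩ := exists_proj hp2 S g hK.pure (n - j - 1)
  have hA : ∀ m : ℕ, ∃ q : ℚ,
      LinearMap.trace (Ql ℓ₀) (T.H X ℓ₀ n).V
        (((T.H X ℓ₀ n).ρ w : Module.End _ _) * ((T.H X ℓ₀ n).ρ F : Module.End _ _) ^ m) =
          algebraMap ℚ (Ql ℓ₀) q ∧
      LinearMap.trace (Ql ℓ) (T.H X ℓ n).V
        (((T.H X ℓ n).ρ w : Module.End _ _) * ((T.H X ℓ n).ρ F : Module.End _ _) ^ m) =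
          algebraMap ℚ (Ql ℓ) q := by
    intro m
    obtain ⟨q, h1, h2⟩ := hS.pair (w := w * F ^ m) n (by
      rw [dg_mul, dg_pow, hF]
      positivity) ℓ₀ ℓ
    exact ⟨q, by rw [← rho_pow r₀, ← rho_mul r₀, h1], by rw [← rho_pow r, ← rho_mul r, h2]⟩
  choose τ hτ hτ' using hA
  refine ⟨(P.sum fun m a => a * τ m) - ((p : ℚ) ^ dg ν w) ^ j * (P'.sum fun m a => a * τ m),
    ?_, ?_⟩
  · rw [trace_ker_pow hp2 hK (N_frob r₀ hF) hM₀ j (hP _ _ _ hK) (hP' _ _ _ hK) (N_rho r₀ w)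
      (fun a => rho_wt r₀ (h.finite X ℓ₀ n) F w p a), trace_mul_ev hτ, trace_mul_ev hτ, map_sub,
      map_mul, map_pow, map_zpow₀, map_natCast]
  · rw [trace_ker_pow hp2 hK' (N_frob r hF) hM j (hP _ _ _ hK') (hP' _ _ _ hK') (N_rho r w)
      (fun a => rho_wt r (h.finite X ℓ n) F w p a), trace_mul_ev hτ', trace_mul_ev hτ', map_sub,
      map_mul, map_pow, map_zpow₀, map_natCast]

lemma finite_quo (h : Facts T ν E) (X : C) (n : ℤ) (ℓ₀ ℓ : Aux p) {I : Subgroup W}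
    (hI : I ≤ ν.ker) :
    Finite (Quo I (ν.ker ⊓ MonoidHom.ker (toRep (h.known.rep X ℓ₀ n)) ⊓
      MonoidHom.ker (toRep (h.known.rep X ℓ n)))) := by
  have f1 : Finite (Set.range fun g : ν.ker => (T.H X ℓ₀ n).ρ g) := h.finite X ℓ₀ n
  have f2 : Finite (Set.range fun g : ν.ker => (T.H X ℓ n).ρ g) := h.finite X ℓ n
  set J := ν.ker ⊓ MonoidHom.ker (toRep (h.known.rep X ℓ₀ n)) ⊓
    MonoidHom.ker (toRep (h.known.rep X ℓ n)) with hJ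
  let f : Quo I J → (Set.range fun g : ν.ker => (T.H X ℓ₀ n).ρ g) ×
      (Set.range fun g : ν.ker => (T.H X ℓ n).ρ g) := fun x =>
    (⟨_, ⟨⟨(x.out : I), hI (x.out : I).2⟩, rfl⟩⟩, ⟨_, ⟨⟨(x.out : I), hI (x.out : I).2⟩, rfl⟩⟩)
  refine Finite.of_injective f fun x y hxy => ?_
  have e1 : (T.H X ℓ₀ n).ρ ((x.out : I) : W) = (T.H X ℓ₀ n).ρ ((y.out : I) : W) :=
    congrArg Subtype.val (congrArg Prod.fst hxy)
  have e2 : (T.H X ℓ n).ρ ((x.out : I) : W) = (T.H X ℓ n).ρ ((y.out : I) : W) :=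
    congrArg Subtype.val (congrArg Prod.snd hxy)
  rw [← QuotientGroup.out_eq' x, ← QuotientGroup.out_eq' y]
  refine QuotientGroup.eq.2 (Subgroup.mem_subgroupOf.2 ?_)
  have key : ∀ (ℓ : Aux p), (T.H X ℓ n).ρ ((x.out : I) : W) = (T.H X ℓ n).ρ ((y.out : I) : W) →
      toRep (h.known.rep X ℓ n) (((x.out : I)⁻¹ * (y.out : I) : I) : W) = 1 := by
    intro ℓ e
    rw [Subgroup.coe_mul, Subgroup.coe_inv, map_mul, toRep_apply _ ((y.out : I) : W), ← e,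
      ← toRep_apply (h.known.rep X ℓ n), ← map_mul, inv_mul_cancel, map_one]
  exact ⟨⟨ν.ker.mul_mem (ν.ker.inv_mem (hI (x.out : I).2)) (hI (y.out : I).2),
    MonoidHom.mem_ker.2 (key ℓ₀ e1)⟩, MonoidHom.mem_ker.2 (key ℓ e2)⟩

/-- the traces on the inertia invariants of a subgroup, for two primes with purity -/
lemma traces_inv (h : Facts T ν E) (hF : dg ν F = 1) (hS : SameTraces T ν X) (n : ℤ)
    {ℓ₀ ℓ : Aux p} (hW₀ : WM T F ℓ₀ X) (hW : WM T F ℓ X) (j : ℕ) {U : Subgroup W} {w : W}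
    (hwU : w ∈ U) (hw : 0 < dg ν w) : ∃ q : ℚ,
      trOn (T.H X ℓ₀ n |>.ρ w) ((T.H X ℓ₀ n).inv ν U j) = algebraMap ℚ (Ql ℓ₀) q ∧
      trOn (T.H X ℓ n |>.ρ w) ((T.H X ℓ n).inv ν U j) = algebraMap ℚ (Ql ℓ) q := by
  set J := ν.ker ⊓ MonoidHom.ker (toRep (h.known.rep X ℓ₀ n)) ⊓
    MonoidHom.ker (toRep (h.known.rep X ℓ n)) with hJ
  obtain ⟨I, hI⟩ : ∃ I : Subgroup W, I = U ⊓ ν.ker := ⟨_, rfl⟩
  have hfin : Finite (Quo I J) := finite_quo h X n ℓ₀ ℓ (by rw [hI]; exact inf_le_right)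
  have : Fintype (Quo I J) := Fintype.ofFinite _
  have h1 : ∀ x : Quo I J, ∃ q : ℚ,
      trOn (T.H X ℓ₀ n |>.ρ (w * ((x.out : I) : W))) (LinearMap.ker ((T.H X ℓ₀ n).N ^ j)) =
        algebraMap ℚ (Ql ℓ₀) q ∧
      trOn (T.H X ℓ n |>.ρ (w * ((x.out : I) : W))) (LinearMap.ker ((T.H X ℓ n).N ^ j)) =
        algebraMap ℚ (Ql ℓ) q := by
    intro x
    refine traces_ker h hF hS n hW₀ hW j ?_
    have hle : I ≤ ν.ker := by
      rw [hI]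
      exact inf_le_right
    have h2 : ((x.out : I) : W) ∈ ν.ker := hle (x.out : I).2
    rw [dg_mul, dg_eq_zero.2 h2, add_zero]
    exact hw
  choose q hq hq' using h1
  refine ⟨(Fintype.card (Quo I J) : ℚ)⁻¹ * ∑ x : Quo I J, q x, ?_, ?_⟩
  · rw [trace_inv (h.known.rep X ℓ₀ n) hI (J := J) (inf_le_left.trans inf_le_right) hwU, map_mul,
      map_inv₀, map_natCast, map_sum, Finset.sum_congr rfl fun x _ => hq x]
  · rw [trace_inv (h.known.rep X ℓ n) hI (J := J) inf_le_right hwU, map_mul,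
      map_inv₀, map_natCast, map_sum, Finset.sum_congr rfl fun x _ => hq' x]

/-- **Purity for all primes implies the independence of all Euler factors.** -/
theorem J_of_wm (h : Facts T ν E) (hF : dg ν F = 1) (hS : SameTraces T ν X)
    (hW : ∀ ℓ, WM T F ℓ X) {U : Subgroup W} {w : W} (hwU : w ∈ U) (hw : 0 < dg ν w) (m : ℕ) :
    J T ν U w m X := by
  intro n
  refine (RatSame.reverse (fun ℓ => (h.known.rep X ℓ n).pol_coeff hwU m)).1 ?_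
  have h1 : ∀ k : ℕ, ∃ q : ℚ, ∀ ℓ : Aux p, LinearMap.trace (Ql ℓ) ((T.H X ℓ n).inv ν U m)
      (((T.H X ℓ n).ρ w).restrict ((h.known.rep X ℓ n).inv_map hwU m) ^ (k + 1)) =
        algebraMap ℚ (Ql ℓ) q := by
    intro k
    refine exists_common _ fun ℓ₀ ℓ => ?_
    obtain ⟨q, h2, h3⟩ := traces_inv h hF hS n (hW ℓ₀) (hW ℓ) m (U.pow_mem hwU (k + 1)) (by
      rw [dg_pow]
      positivity)
    refine ⟨q, ?_, ?_⟩
    · rw [trOn_pow ((h.known.rep X ℓ₀ n).inv_map hwU m) (k + 1), ← rho_pow (h.known.rep X ℓ₀ n), h2]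
    · rw [trOn_pow ((h.known.rep X ℓ n).inv_map hwU m) (k + 1), ← rho_pow (h.known.rep X ℓ n), h3]
  choose t ht using h1
  obtain ⟨P, hP⟩ := (indep_iff Ql (fun ℓ : Aux p => (T.H X ℓ n).inv ν U m)
    (fun ℓ => ((T.H X ℓ n).ρ w).restrict ((h.known.rep X ℓ n).inv_map hwU m))).2
    ⟨t, fun ℓ k => ht k ℓ⟩
  refine ⟨P, fun ℓ => ?_⟩
  have h2 : (((T.H X ℓ n).ρ w).restrict ((h.known.rep X ℓ n).inv_map hwU m)).charpoly.reverse =
      P.map (algebraMap ℚ (Ql ℓ)) := hP ℓ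
  change ((T.H X ℓ n).pol ν U w m).reverse = _
  rw [(h.known.rep X ℓ n).pol_eq hwU, h2]
  congr 1

end Pool.Agent.Q219.DG
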